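import Pool.Agent.P.MP_14681b_lc.K.Exist
import Pool.Agent.P.MP_9014a2_lc.Core

/-! The construction, effective in the limit. -/

set_option autoImplicit false

namespace Pool.Agent.P.MP_14681b_lc.K

open Classical Finset Filter Pool.Agent.P.MP_9014a2_lc Pool.Agent.Lib.Helper43

variable {X : ℕ → Bool}

section dyadic
variable {α β : Type} [Primcodable α] [Primcodable β] {r s : α → ℝ}

@[fun_prop] lemma ci_sum {l : α → List ℕ} (h : CI X l) : CI X fun a => (l a).sum :=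
  (CI.of_comp pr_sum.to_comp).comp h

@[fun_prop] lemma ci_allStr {n : α → ℕ} (h : CI X n) : CI X fun a => allStr (n a) :=
  (CI.of_comp pr_allStr.to_comp).comp h

@[fun_prop] lemma ci_lev {n : α → ℕ} (h : CI X n) : CI X fun a => lev (n a) :=
  (CI.of_comp pr_lev.to_comp).comp h

variable (X) in
/-- computable functions with dyadic values -/
def CR (r : α → ℝ) : Prop := ∃ f g : α → ℕ, CI X f ∧ CI X g ∧ ∀ a, r a = f a / 2 ^ g a

lemma CR.nat {f : α → ℕ} (hf : CI X f) : CR X fun a => (f a : ℝ) :=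
  ⟨f, fun _ => 0, hf, CI.const _, fun a => by simp⟩

lemma CR.one : CR X fun _ : α => (1 : ℝ) := by simpa using CR.nat (CI.const 1)

lemma CR.comp (h : CR X r) {k : β → α} (hk : CI X k) : CR X fun b => r (k b) :=
  let ⟨_, _, h1, h2, h3⟩ := h; ⟨_, _, h1.comp hk, h2.comp hk, fun _ => h3 _⟩

lemma CR.div (h : CR X r) {k : α → ℕ} (hk : CI X k) : CR X fun a => r a / 2 ^ k a :=
  let ⟨f, g, h1, h2, h3⟩ := h
  ⟨f, fun a => g a + k a, h1, by fun_prop, fun a => by simp only [h3, pow_add, div_div]⟩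

lemma CR.mul (h : CR X r) (h' : CR X s) : CR X fun a => r a * s a :=
  let ⟨f, g, h1, h2, h3⟩ := h
  let ⟨f', g', h4, h5, h6⟩ := h'
  ⟨fun a => f a * f' a, fun a => g a + g' a, by fun_prop, by fun_prop, fun a => by
    simp only [h3, h6, pow_add, div_mul_div_comm, Nat.cast_mul]⟩

lemma CR.add (h : CR X r) (h' : CR X s) : CR X fun a => r a + s a :=
  let ⟨f, g, h1, h2, h3⟩ := h
  let ⟨f', g', h4, h5, h6⟩ := h'
  ⟨fun a => f a * 2 ^ g' a + 2 ^ g a * f' a, fun a => g a + g' a, by fun_prop, by fun_prop,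
    fun a => by simp only [h3, h6]; push_cast; field_simp; ring⟩

lemma CR.le (h : CR X r) (h' : CR X s) : DI X fun a => r a ≤ s a := by
  obtain ⟨f, g, h1, h2, h3⟩ := h
  obtain ⟨f', g', h4, h5, h6⟩ := h'
  refine DI.of_iff (p := fun a => f a * 2 ^ g' a ≤ f' a * 2 ^ g a) (by fun_prop) fun a => ?_
  rw [h3, h6, div_le_div_iff₀ (by positivity) (by positivity)]
  norm_cast

lemma CR.ind {P : α → List Bool → Prop} (h : DI X fun x : α × List Bool => P x.1 x.2) :
    CR X fun x : α × List Bool => ind (P x.1) x.2 :=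
  ⟨fun x => if P x.1 x.2 then 1 else 0, fun _ => 0, by fun_prop, CI.const _, fun a => by
    simp [MP_14681b_lc.ind]⟩

lemma CR.lsum {r : α → β → ℝ} {l : α → List β} (h : CR X fun x : α × β => r x.1 x.2)
    (hl : CI X l) : CR X fun a => ((l a).map (r a)).sum := by
  obtain ⟨f, g, h1, h2, h3⟩ := h
  have h4 : CI X fun a => ((l a).map fun b => g (a, b)).sum := by fun_prop
  refine ⟨fun a => ((l a).map fun b =>
    f (a, b) * 2 ^ (((l a).map fun b => g (a, b)).sum - g (a, b))).sum, _, by fun_prop, h4,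
    fun a => ?_⟩
  rw [Nat.cast_list_sum, List.map_map, div_eq_mul_inv, ← List.sum_map_mul_right]
  refine congrArg _ (List.map_congr_left fun b hb => ?_)
  have : g (a, b) ≤ ((l a).map fun b => g (a, b)).sum :=
    List.le_sum_of_mem (List.mem_map.2 ⟨b, hb, rfl⟩)
  rw [show r a b = _ from h3 (a, b), Function.comp, Nat.cast_mul, Nat.cast_pow, Nat.cast_two,
    pow_sub₀ _ two_ne_zero this]
  field_simp

lemma CR.rsum {r : α → ℕ → ℝ} {n : α → ℕ} (h : CR X fun x : α × ℕ => r x.1 x.2) (hn : CI X n) :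
    CR X fun a => ∑ p ∈ range (n a), r a p :=
  h.lsum (l := fun a => List.range (n a)) (by fun_prop)

lemma CR.ex {r : α → List Bool → ℝ} {n : α → ℕ} (h : CR X fun x : α × List Bool => r x.1 x.2)
    (hn : CI X n) : CR X fun a => MP_14681b_lc.Ex (n a) (r a) := by
  simpa only [sum_map_allStr, MP_14681b_lc.Ex] using (h.lsum (ci_allStr hn)).div hn

end dyadic

/-- dependent choice along a relation with c.e. complement, computable in the limit -/
lemma pi_choice {G : ℕ → ℕ → Prop} {I : ℕ → Prop} (hG : Sig X fun x : ℕ × ℕ => ¬G x.1 x.2)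
    (h0 : I 0) (hI : ∀ s s', G s s' → I s') (hex : ∀ s, I s → ∃ s', G s s') :
    ∃ (st : ℕ → ℕ) (ap : ℕ → ℕ → ℕ), (CI X fun x : ℕ × ℕ => ap x.1 x.2) ∧ st 0 = 0 ∧
      ∀ j, G (st j) (st (j + 1)) ∧ ∀ᶠ t in atTop, ap t j = st j := by
  obtain ⟨q, hq, e⟩ := hG
  have h1 : ∀ x : ℕ × ℕ, ∃ s', s' = x.1 ∨ ∀ r < x.1, ¬q ((x.2, s'), r) := fun x => ⟨_, Or.inl rfl⟩
  have h2 : CI X fun x => Nat.find (h1 x) :=
    CI.find (DI.or (by fun_prop) (DI.allLt (by fun_prop) (by fun_prop))) h1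
  let st : ℕ → ℕ := fun j => Nat.rec 0 (fun _ s => sInf {s' | G s s'}) j
  have h3 : ∀ j, I (st j) → G (st j) (st (j + 1)) := fun j h => Nat.sInf_mem (hex _ h)
  have h4 : ∀ j, I (st j) := fun j => Nat.rec h0 (fun j ih => hI _ _ (h3 j ih)) j
  refine ⟨st, fun t j => Nat.rec 0 (fun _ s => Nat.find (h1 (t, s))) j,
    CI.natRec (by fun_prop) (CI.const _) (h2.comp (g := fun x : (ℕ × ℕ) × ℕ × ℕ => (x.1.1, x.2.2))
      (by fun_prop)), rfl, fun j => ⟨h3 j (h4 j), ?_⟩⟩
  induction j with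
  | zero => exact Eventually.of_forall fun _ => rfl
  | succ j ih =>
    have h5 : ∀ k ∈ range (st (j + 1)), ∀ᶠ t in atTop, ∃ r < t, q ((st j, k), r) := fun k hk => by
      obtain ⟨r, hr⟩ := (e (st j, k)).1 (Nat.notMem_of_lt_sInf (mem_range.1 hk))
      exact (eventually_gt_atTop r).mono fun t ht => ⟨r, ht, hr⟩
    filter_upwards [ih, (eventually_all_finset _).2 h5, eventually_ge_atTop (st (j + 1))]
      with t t1 t2 t3
    change Nat.find (h1 (t, _)) = _
    rw [t1, Nat.find_eq_iff]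
    refine ⟨Or.inr fun r _ h => (e (_, _)).2 ⟨r, h⟩ (h3 j (h4 j)), fun k hk => ?_⟩
    obtain ⟨r, r1, r2⟩ := t2 k (mem_range.2 hk)
    exact not_or.2 ⟨(hk.trans_le t3).ne, fun h => h r r1 r2⟩

/-- numerators of the weights -/
def am (s p : ℕ) (σ : List Bool) : ℕ := if p < lev s then (2 ^ lev s -
  (2 ^ lev s - (Denumerable.ofNat (List ℕ) s.unpair.2).getD (Encodable.encode (p, σ)) 0)) else 0

/-- the weights -/
noncomputable def al (s p : ℕ) (σ : List Bool) : ℝ := am s p σ / 2 ^ lev s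

/-- strings of full weight -/
def Hi (s p : ℕ) (σ : List Bool) : Prop := am s p (σ.take (lev s)) = 2 ^ lev s

/-- strings which get full weight -/
def Nw (s s' p : ℕ) (σ : List Bool) : Prop := Hi s' p σ ∧ ¬Hi s p σ

@[fun_prop] lemma ci_am {α : Type} [Primcodable α] {s p : α → ℕ} {σ : α → List Bool} (hs : CI X s)
    (hp : CI X p) (hσ : CI X σ) : CI X fun a => am (s a) (p a) (σ a) := by
  unfold am
  fun_prop

@[fun_prop] lemma di_Hi {α : Type} [Primcodable α] {s p : α → ℕ} {σ : α → List Bool} (hs : CI X s)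
    (hp : CI X p) (hσ : CI X σ) : DI X fun a => Hi (s a) (p a) (σ a) := by
  unfold Hi
  fun_prop

@[fun_prop] lemma di_Nw {α : Type} [Primcodable α] {s s' p : α → ℕ} {σ : α → List Bool}
    (hs : CI X s) (hs' : CI X s') (hp : CI X p) (hσ : CI X σ) :
    DI X fun a => Nw (s a) (s' a) (p a) (σ a) := by
  unfold Nw
  fun_prop

lemma am_le (s p : ℕ) (σ : List Bool) : am s p σ ≤ 2 ^ lev s := by
  unfold am
  split_ifs
  exacts [Nat.sub_le _ _, Nat.zero_le _]

lemma al_bd (s p : ℕ) (σ : List Bool) : 0 ≤ al s p σ ∧ al s p σ ≤ 1 :=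
  ⟨by unfold al; positivity, (div_le_one (by positivity)).2 (by exact_mod_cast am_le s p σ)⟩

lemma al_zero {s p : ℕ} (h : lev s ≤ p) (σ : List Bool) : al s p σ = 0 := by
  simp [al, am, h.not_gt]

lemma hi_iff {s p : ℕ} {σ : List Bool} : Hi s p σ ↔ 1 ≤ al s p (σ.take (lev s)) := by
  rw [al, one_le_div (by positivity), Hi, le_antisymm_iff, and_iff_right (am_le _ _ _)]
  norm_cast

lemma Hi.lt {s p : ℕ} {σ : List Bool} (h : Hi s p σ) : p < lev s :=
  not_le.1 fun h1 => by simpa [al_zero h1, not_le.2 one_pos] using hi_iff.1 h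

lemma hi_take {s p m : ℕ} (h : lev s ≤ m) (σ : List Bool) : Hi s p (σ.take m) ↔ Hi s p σ := by
  rw [Hi, Hi, List.take_take, min_eq_left h]

lemma exists_st (m : ℕ) (a : ℕ → List Bool → ℕ) (ha : ∀ p σ, a p σ ≤ 2 ^ m) :
    ∃ s, lev s = m ∧ ∀ p < m, ∀ σ : List Bool, σ.length = m → am s p σ = a p σ := by
  set N := (range m ×ˢ strs m).sup (fun x => Encodable.encode x) + 1
  refine ⟨Nat.pair m (Encodable.encode ((List.range N).map fun i =>
    ((Encodable.decode i).map fun x : ℕ × List Bool => a x.1 x.2).getD 0)), by simp [lev],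
    fun p hp σ hσ => ?_⟩
  have hlt : Encodable.encode (p, σ) < N := Nat.lt_succ_of_le
    (le_sup (f := fun x => Encodable.encode x) (mk_mem_product (mem_range.2 hp) (mem_strs.2 hσ)))
  simp only [am, lev, Nat.unpair_pair, hp, if_true, Denumerable.ofNat_encode]
  rw [List.getD_eq_getElem _ _ (by simpa only [List.length_map, List.length_range] using hlt),
    List.getElem_map, List.getElem_range, Encodable.encodek, Option.map_some, Option.getD_some,
    Nat.sub_sub_self (ha p σ)]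

variable (B : ℕ → List Bool → Prop) (sh c ρ : ℕ → ℕ)

/-- the budget of a state -/
noncomputable def Bd (s n : ℕ) : ℝ :=
  Bud B sh (fun p => c p) (fun p => 1 / 2 ^ (ρ p + 1)) (lev s) (al s) n + 1 / 2 ^ lev s

/-- admissible steps -/
def Gd (s s' : ℕ) : Prop :=
  lev s < lev s' ∧ (∀ p < lev s, ∀ σ ∈ allStr (lev s'), Hi s p σ → Hi s' p σ) ∧
    (∀ n, lev s' ≤ n → Bd B sh c ρ s' n ≤ 2) ∧ ∀ L : List (ℕ × List Bool),
      (∀ x ∈ L, x.1 < lev s ∧ lev s' ≤ x.2.length ∧ ¬Hi s' x.1 x.2) →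
      (L.map fun x => (1 : ℝ) / 2 ^ ρ x.1).sum ≤ 1 → Com B sh (lev s) (lev s') L

variable {B sh c ρ}

lemma exists_gd {s : ℕ} (h : ∀ n, lev s ≤ n → Bd B sh c ρ s n ≤ 2) : ∃ s', Gd B sh c ρ s s' := by
  have hδ : (0 : ℝ) < 1 / 2 ^ lev s / 4 := by positivity
  obtain ⟨m, β, hlm, hβ, hβ0, hinv, hcov⟩ := exists_step (B := B) (sh := sh) (c := fun p => c p)
    (θ := fun p => 1 / 2 ^ (ρ p + 1)) (fun p => by positivity) (fun p => by positivity) (lev s)
    (al_bd s) hδ
  set K : ℝ := ∑ p ∈ range (lev s), c p * (1 / 2 ^ (ρ p + 1)) with hK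
  obtain ⟨M, hM, hmM⟩ := (((tendsto_const_nhds (x := K)).div_atTop
    (tendsto_pow_atTop_atTop_of_one_lt one_lt_two)).eventually (ge_mem_nhds hδ) |>.and
      (eventually_gt_atTop m)).exists
  have hp : (0 : ℝ) < 2 ^ M := by positivity
  obtain ⟨s', hs1, hs2⟩ := exists_st M (fun p σ => ⌈β p (σ.take m) * 2 ^ M⌉₊) fun p σ =>
    Nat.ceil_le.2 (by simpa using (hβ p _).2)
  have k : ∀ p (σ : List Bool), σ.length = M → β p (σ.take m) ≤ al s' p σ ∧
      al s' p σ ≤ β p (σ.take m) + if p < lev s then 1 / 2 ^ M else 0 := fun p σ hσ => by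
    by_cases h1 : p < lev s
    · rw [al, hs1, hs2 p (by omega) σ hσ, le_div_iff₀ hp, div_le_iff₀ hp, if_pos h1, add_mul,
        one_div_mul_cancel hp.ne']
      exact ⟨Nat.le_ceil _,
        (Nat.ceil_lt_add_one (mul_nonneg ((al_bd s p _).1.trans (hβ p _).1) hp.le)).le⟩
    · have h2 : β p (σ.take m) = 0 := by rw [hβ0 p _ (not_lt.1 h1), al_zero (not_lt.1 h1)]
      by_cases h3 : p < M
      · simp [al, hs2 p h3 σ hσ, h2, h1]
      · simp [al_zero (hs1 ▸ not_lt.1 h3), h2, h1]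
  have k' : ∀ p (σ : List Bool), M ≤ σ.length → β p (σ.take m) ≤ al s' p (σ.take M) :=
    fun p σ hσ => by simpa [List.take_take, hmM.le] using (k p (σ.take M) (by simp [hσ])).1
  refine ⟨s', by omega, fun p _ σ hσ h1 => ?_, fun n hn => ?_, fun L hL h1 => ?_⟩
  · rw [mem_allStr, hs1] at hσ
    rw [hi_iff] at h1 ⊢
    refine hs1 ▸ le_trans ?_ ((hβ p _).1.trans (k' p σ hσ.ge))
    rwa [List.take_take, min_eq_left hlm]
  · have h1 := hinv n (by omega)
    have h2 := h n (by omega)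
    have h3 : (1 : ℝ) / 2 ^ M ≤ 1 / 2 ^ lev s / 2 := by
      rw [div_div, ← pow_succ]
      exact one_div_le_one_div_of_le (by positivity) (pow_le_pow_right₀ one_le_two (by omega))
    have h4 : Bud B sh (fun p => c p) (fun p => 1 / 2 ^ (ρ p + 1)) M (al s') n ≤
        Bud B sh (fun p => c p) (fun p => 1 / 2 ^ (ρ p + 1)) m β n + K / 2 ^ M := by
      rw [hK, sum_div, sum_cut (show lev s ≤ n by omega), Bud, Bud, ← sum_add_distrib]
      refine sum_le_sum fun p _ => ?_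
      have e1 := Ex_mono (n := n + sh p) fun σ hσ => mul_le_mul_of_nonneg_left
        (sub_le_sub_left (k' p σ (by omega)) 1) (ind_nonneg (B p) σ)
      have e2 := Ex_mono fun σ hσ => (k p σ hσ).2
      rw [Ex_add, Ex_const, Ex_take hmM.le] at e2
      refine (mul_le_mul_of_nonneg_left (add_le_add e1 (mul_le_mul_of_nonneg_left e2
        (by positivity))) (by positivity)).trans_eq ?_
      split_ifs <;> ring
    rw [Bd, hs1] at *
    linarith
  · obtain ⟨n, n1, n2, n3⟩ := hcov L (fun x hx => ⟨(hL x hx).1, (k' _ _ (hs1 ▸ (hL x hx).2.1)).trans_lt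
      (not_le.1 fun h2 => (hL x hx).2.2 (hi_iff.2 (hs1 ▸ h2)))⟩) (le_of_eq_of_le (congrArg _
        (List.map_congr_left fun x _ => by rw [pow_succ]; field_simp)) h1)
    exact ⟨n, by omega, n2, fun x hx => ⟨by have := (n3 x hx).1; omega, (n3 x hx).2⟩⟩

lemma sig_bd (hB : Sig X fun x : ℕ × List Bool => B x.1 x.2) (hsh : CI X sh) (hc : CI X c)
    (hρ : CI X ρ) : Sig X fun x : ℕ × ℕ => ¬Bd B sh c ρ x.1 x.2 ≤ 2 := by
  obtain ⟨q, hq, e⟩ := hB
  let u : ℕ → ℕ → List Bool → Prop := fun t p σ => ∃ r < t, q ((p, σ), r)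
  refine Sig.of_iff (p := fun x : ℕ × ℕ => ∃ t, ¬Bd (u t) sh c ρ x.1 x.2 ≤ 2)
    (Sig.ex (Sig.of_di (DI.not (CR.le (CR.add (CR.rsum (CR.mul (CR.nat (by fun_prop)) (CR.add
      (CR.ex (CR.mul (CR.ind (P := fun x : ((ℕ × ℕ) × ℕ) × ℕ => u x.1.2 x.2)
        (DI.exLt (by fun_prop) (by fun_prop))) ?_) (by fun_prop))
      (CR.mul (CR.one.div (by fun_prop)) (CR.ex ((CR.nat (by fun_prop)).div (by fun_prop))
        (by fun_prop))))) (by fun_prop)) (CR.one.div (by fun_prop)))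
      (by simpa using CR.nat (CI.const 2)))))) fun x => ⟨fun ⟨t, h⟩ h' => h (le_trans ?_ h'), ?_⟩
  · refine ⟨fun x => 2 ^ lev x.1.1.1.1 - am x.1.1.1.1 x.1.2 (x.2.take (lev x.1.1.1.1)),
      fun x => lev x.1.1.1.1, by fun_prop, by fun_prop, fun x => ?_⟩
    rw [Nat.cast_sub (am_le _ _ _), sub_div]
    simp [al]
  · refine add_le_add_left (sum_le_sum fun p _ => mul_le_mul_of_nonneg_left (add_le_add_left
      (Ex_mono fun σ _ => mul_le_mul_of_nonneg_right (ind_mono fun ⟨r, _, h⟩ => (e (p, σ)).2 ⟨r, h⟩)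
        (sub_nonneg.2 (al_bd _ _ _).2)) _) (Nat.cast_nonneg _)) _
  · intro h
    have : ∀ p ∈ range x.2, ∀ᶠ t in atTop, ∀ σ ∈ strs (x.2 + sh p), (u t p σ ↔ B p σ) :=
      fun p _ => (eventually_all_finset _).2 fun σ _ => by
        by_cases h1 : B p σ
        · obtain ⟨r, hr⟩ := (e (p, σ)).1 h1
          exact (eventually_gt_atTop r).mono fun t ht => iff_of_true ⟨r, ht, hr⟩ h1
        · exact Eventually.of_forall fun t => iff_of_false
            (fun ⟨r, _, h⟩ => h1 ((e (p, σ)).2 ⟨r, h⟩)) h1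
    obtain ⟨t, ht⟩ := ((eventually_all_finset _).2 this).exists
    refine ⟨t, fun h' => h (le_of_eq_of_le (congrArg (· + _) (sum_congr rfl fun p hp => ?_)) h')⟩
    rw [Ex_congr fun σ hσ => ?_]
    simp only [ind, ht p hp σ (mem_strs.2 hσ)]

lemma sig_gd (hB : Sig X fun x : ℕ × List Bool => B x.1 x.2) (hsh : CI X sh) (hc : CI X c)
    (hρ : CI X ρ) : Sig X fun x : ℕ × ℕ => ¬Gd B sh c ρ x.1 x.2 := by
  simp only [Gd, Com, not_and_or (a := lev _ < lev _), not_and_or (a := ∀ p < _, _),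
    not_and_or (a := ∀ n, _ ≤ n → _)]
  refine (Sig.of_di (by fun_prop)).or ((Sig.of_di (DI.not (DI.allLt (DI.allL
    (DI.imp (by fun_prop) (by fun_prop)) (by fun_prop)) (by fun_prop)))).or (Sig.or ?_ ?_))
  · push Not
    simp only [← not_le]
    exact Sig.ex ((Sig.of_di (by fun_prop)).and
      ((sig_bd hB hsh hc hρ).comp (g := fun x : (ℕ × ℕ) × ℕ => (x.1.2, x.2)) (by fun_prop)))
  · refine Sig.of_iff (p := fun x : ℕ × ℕ => ∃ L : List (ℕ × List Bool),
      (∀ y ∈ L, y.1 < lev x.1 ∧ lev x.2 ≤ y.2.length ∧ ¬Hi x.2 y.1 y.2) ∧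
      (L.map fun y => (1 : ℝ) / 2 ^ ρ y.1).sum ≤ 1 ∧ ∀ n < lev x.2 + 1, n < lev x.1 ∨
        ∃ y, y ∈ L ∧ (lev x.2 < n + sh y.1 ∨ B y.1 (y.2.take (n + sh y.1))))
      (Sig.ex ((Sig.of_di (DI.allL (by fun_prop) (by fun_prop))).and
        ((Sig.of_di ((CR.lsum (CR.one.div (by fun_prop)) (by fun_prop)).le CR.one)).and
          (Sig.allLt ((Sig.of_di (by fun_prop)).or (Sig.ex ((Sig.of_di (by fun_prop)).and
            ((Sig.of_di (by fun_prop)).or (hB.comp (g := fun z : (((ℕ × ℕ) × List (ℕ × List Bool)) ×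
              ℕ) × ℕ × List Bool => (z.2.1, z.2.2.take (z.1.2 + sh z.2.1))) (by fun_prop))))))
            (by fun_prop))))) fun x => ?_
    push Not
    simp only [imp_iff_not_or (a := lev _ ≤ _), imp_iff_not_or (a := _ + _ ≤ _), not_le]

lemma nw_meas {s s' : ℕ} (h : Gd B sh c ρ s s') (p : ℕ) :
    Ex (lev s') (ind (Nw s s' p)) = Ex (lev s') (ind (Hi s' p)) - Ex (lev s) (ind (Hi s p)) := by
  rw [← Ex_take h.1.le (ind (Hi s p)), ← Ex_sub]
  refine Ex_congr fun σ hσ => ?_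
  have h1 := fun h' : Hi s p σ => h.2.1 p h'.lt σ ((mem_allStr _ _).2 hσ) h'
  unfold ind Nw
  rw [hi_take le_rfl]
  by_cases a : Hi s p σ <;> by_cases b : Hi s' p σ <;> simp_all

/-- The sets `Nw` form a small family, computable in the limit, and every finite family of
sequences which avoid them has infinitely many common good times. -/
theorem core (hB : Sig X fun x : ℕ × List Bool => B x.1 x.2) (hsh : CI X sh) (hc : CI X c)
    (hρ : CI X ρ) (h0 : ∀ n, ∑ p ∈ range n, (c p : ℝ) * Ex (n + sh p) (ind (B p)) ≤ 1) :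
    ∃ (st : ℕ → ℕ) (ap : ℕ → ℕ → ℕ), (CI X fun x : ℕ × ℕ => ap x.1 x.2) ∧
      (∀ j, ∀ᶠ t in atTop, ap t j = st j) ∧ (∀ j, lev (st j) < lev (st (j + 1))) ∧
      (∀ J n, ∑ p ∈ range n, (c p : ℝ) / 2 ^ ρ p * ∑ j ∈ range J,
        Ex (lev (st (j + 1))) (ind (Nw (st j) (st (j + 1)) p)) ≤ 4) ∧
      ∀ (ι : Type) (F : Finset ι) (Z : ι → ℕ → Bool) (p : ι → ℕ),
        ∑ i ∈ F, (1 : ℝ) / 2 ^ ρ (p i) ≤ 1 →
        (∀ i ∈ F, ∀ j, ¬Nw (st j) (st (j + 1)) (p i) (pre (Z i) (lev (st (j + 1))))) →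
        ∃ᶠ n in atTop, ∀ i ∈ F, ¬B (p i) (pre (Z i) (n + sh (p i))) := by
  have i0 : ∀ n, lev 0 ≤ n → Bd B sh c ρ 0 n ≤ 2 := fun n _ => by
    have : ∀ p, al 0 p = fun _ => 0 := fun p => funext (al_zero (lev_zero ▸ p.zero_le))
    simp only [Bd, Bud, this, Ex_const, lev_zero, sub_zero, mul_one, mul_zero, add_zero]
    linarith [h0 n]
  obtain ⟨st, ap, h1, h2, h3⟩ := pi_choice (I := fun s => ∀ n, lev s ≤ n → Bd B sh c ρ s n ≤ 2)
    (sig_gd hB hsh hc hρ) i0 (fun s s' h => h.2.2.1) fun s => exists_gd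
  refine ⟨st, ap, h1, fun j => (h3 j).2, fun j => (h3 j).1.1, fun J n => ?_,
    fun ι F Z p h4 h5 => frequently_atTop.2 fun N => ?_⟩
  · have h4 : Bd B sh c ρ (st J) (max n (lev (st J))) ≤ 2 := by
      rcases J with _ | J
      · rw [h2]
        exact i0 _ (le_max_right _ _)
      · exact (h3 J).1.2.2.1 _ (le_max_right _ _)
    have h5 : 0 ≤ (1 : ℝ) / 2 ^ lev (st J) := by positivity
    have h6 : ∀ p, 0 ≤ Ex (lev (st J)) (al (st J) p) := fun p => Ex_nonneg fun _ _ => (al_bd _ _ _).1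
    have h7 : ∀ p, 0 ≤ Ex (max n (lev (st J)) + sh p)
        fun σ => ind (B p) σ * (1 - al (st J) p (σ.take (lev (st J)))) :=
      fun p => Ex_nonneg fun _ _ => mul_nonneg (ind_nonneg _ _) (sub_nonneg.2 (al_bd _ _ _).2)
    rw [Bd] at h4
    refine le_trans ?_ (by linarith : 2 * Bud B sh (fun p => c p)
      (fun p => 1 / 2 ^ (ρ p + 1)) (lev (st J)) (al (st J)) (max n (lev (st J))) ≤ 4)
    rw [Bud, mul_sum]
    refine (sum_le_sum fun p _ => ?_).trans (sum_le_sum_of_subset_of_nonneg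
      (range_subset_range.2 (le_max_left _ _)) fun p _ _ => by have := h6 p; have := h7 p; positivity)
    rw [sum_congr rfl fun j _ => nw_meas (h3 j).1 p,
      sum_range_sub fun j => Ex (lev (st j)) (ind (Hi (st j) p))]
    have h8 : 0 ≤ Ex (lev (st 0)) (ind (Hi (st 0) p)) := Ex_nonneg fun σ _ => ind_nonneg _ _
    have h9 : Ex (lev (st J)) (ind (Hi (st J) p)) ≤ Ex (lev (st J)) (al (st J) p) :=
      Ex_mono fun σ hσ => by
        unfold ind
        split_ifs with h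
        exacts [by simpa [← hσ] using hi_iff.1 h, (al_bd _ _ _).1]
    refine (mul_le_mul_of_nonneg_left ((sub_le_self _ h8).trans h9) (by positivity)).trans ?_
    rw [mul_add, mul_add, pow_succ]
    exact le_add_of_nonneg_of_le (by have := h7 p; positivity) (le_of_eq (by field_simp))
  have h6 : ∀ j, j ≤ lev (st j) := fun j =>
    Nat.rec (Nat.zero_le _) (fun j ih => ih.trans_lt (h3 j).1.1) j
  have h7 : ∀ i ∈ F, ∀ j, ¬Hi (st j) (p i) (pre (Z i) (lev (st j))) := fun i hi j => by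
    induction j with
    | zero => exact fun h => by simpa [h2, lev_zero] using h.lt
    | succ j ih =>
      refine fun h => h5 i hi j ⟨h, fun h' => ih ?_⟩
      rwa [← pre_take _ (h3 j).1.1.le, hi_take le_rfl]
  obtain ⟨n, -, n2, n3⟩ := (h3 (N + F.sup p + 1)).1.2.2.2
    (F.toList.map fun i => (p i, pre (Z i) (lev (st (N + F.sup p + 1 + 1))))) (by
      simp only [List.forall_mem_map, mem_toList]
      exact fun i hi => ⟨lt_of_lt_of_le (by have := le_sup (f := p) hi; omega) (h6 _),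
        (pre_length _ _).ge, h7 i hi _⟩) (by simpa [Function.comp_def] using h4)
  simp only [List.forall_mem_map, mem_toList] at n3
  exact ⟨n, le_trans (by omega) ((h6 _).trans n2), fun i hi => pre_take _ (n3 i hi).1 ▸ (n3 i hi).2⟩

end Pool.Agent.P.MP_14681b_lc.K
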