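import Mathlib

/-! Plain complexity and randomness relative to the halting problem. -/

set_option autoImplicit false

namespace Pool.Agent.P.MP_14681b_lc.K

open MeasureTheory Filter

/-- The first `n` bits of `X`. -/
def res (X : ℕ → Bool) (n : ℕ) : List Bool := List.ofFn fun i : Fin n => X i

/-- The plain complexity of `σ` for the machine `U`: the least length of a program for `σ`. -/
noncomputable def cx (U : List Bool →. List Bool) (σ : List Bool) : ℕ∞ :=
  ⨅ (q : List Bool) (_ : σ ∈ U q), (q.length : ℕ∞)

/-- An optimal plain machine. -/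
def Optimal (U : List Bool →. List Bool) : Prop :=
  Partrec U ∧ ∀ M : List Bool →. List Bool, Partrec M → ∃ c : ℕ, ∀ σ, cx U σ ≤ cx M σ + c

/-- The first `n` bits of `X` have complexity at least `n - d`. -/
def Inc (U : List Bool →. List Bool) (d : ℕ) (X : ℕ → Bool) (n : ℕ) : Prop :=
  (n : ℕ∞) ≤ cx U (res X n) + d

open Classical in
/-- The halting problem as an oracle. -/
noncomputable def halt : ℕ →. ℕ := fun n =>
  Part.some (if ((Denumerable.ofNat Nat.Partrec.Code n).eval n).Dom then 1 else 0)

/-- The fair coin measure on Cantor space. -/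
noncomputable def coin : Measure (ℕ → Bool) :=
  Measure.infinitePi fun _ => ProbabilityTheory.uniformOn Set.univ

/-- The open set generated by a set of strings. -/
def opn (S : Set (List Bool)) : Set (ℕ → Bool) := {X | ∃ n, res X n ∈ S}

/-- A Martin-Loef test relative to the halting problem. -/
def IsTest (V : ℕ → Set (List Bool)) : Prop :=
  (∃ f : ℕ × List Bool →. ℕ, RecursiveIn {halt} f ∧ ∀ k σ, σ ∈ V k ↔ (f (k, σ)).Dom) ∧
    ∀ k, coin (opn (V k)) ≤ 2⁻¹ ^ k

/-- Martin-Loef random relative to the halting problem. -/
def TwoRandom (X : ℕ → Bool) : Prop := ∀ V, IsTest V → ∃ k, X ∉ opn (V k)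

end Pool.Agent.P.MP_14681b_lc.K
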