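import Pool.Agent.P.MP_14681b_lc.K.Core
import Pool.Agent.P.MP_14681b_lc.K.Defs

/-! Countably many random sequences. -/

set_option autoImplicit false

namespace Pool.Agent.P.MP_14681b_lc.K

open Classical Finset Filter MeasureTheory Encodable Nat.Partrec Pool.Agent.P.MP_9014a2_lc
  Pool.Agent.Lib.Helper43

/-- the empty oracle -/
def O0 : ℕ → Bool := fun _ => false

/-- the halting set -/
noncomputable def Kb : ℕ → Bool := fun n => decide ((Denumerable.ofNat Code n).eval n).Dom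

variable {α β : Type} [Primcodable α] [Primcodable β] {U : List Bool →. List Bool}

lemma ci0 {f : α → β} (hf : CI O0 f) : Computable f :=
  RecursiveIn.partrec_of_oracle (by rintro g rfl; exact (Computable.const 0).partrec) (ci_iff.1 hf)

lemma res_eq (Z : ℕ → Bool) (n : ℕ) : res Z n = pre Z n := rfl

lemma inc_iff {d n : ℕ} {Z : ℕ → Bool} :
    Inc U d Z n ↔ ¬∃ q, pre Z n ∈ U q ∧ q.length + d < (pre Z n).length := by
  simp only [Inc, cx, ENat.iInf_add, le_iInf_iff, res_eq, pre_length, not_exists, not_and, not_lt]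
  norm_cast

lemma sig_bad (hU : Partrec U) {e : ℕ → ℕ} (he : CI O0 e) :
    Sig O0 fun x : ℕ × List Bool => ∃ q, x.2 ∈ U q ∧ q.length + e x.1 < x.2.length := by
  obtain ⟨c, hc⟩ := Code.exists_code.1 hU
  have := CI.of_comp (X := O0) (pr_uc c).to_comp
  exact ⟨fun x => uc c (e x.1.1, x.1.2, x.2) = true, by fun_prop, fun x => (un_uc hc _ _).symm⟩

lemma rf_dom (f : ℕ → Bool) : (Nat.rfind fun n => Part.some (f n)).Dom ↔ ∃ n, f n = true :=
  Nat.rfind_dom.trans (by simp)

lemma di_halt {p : α → Prop} (hp : Sig O0 p) : DI Kb p := by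
  obtain ⟨q, hq, e⟩ := hp
  obtain ⟨f, hf, e'⟩ := hq.exists_bool
  obtain ⟨c, hc⟩ := Code.exists_code.1 (Partrec.rfind (p := fun a n => Part.some (f (a, n)))
    (ci0 hf).partrec)
  refine DI.of_bool (CI.oracle.comp (g := fun a => encode ((c.comp .left).curry (encode a)))
    (CI.of_comp (Primrec.encode.comp (Code.primrec₂_curry.comp (.const _) .encode)).to_comp))
    fun a => ?_
  simp [Kb, Code.eval_curry, Code.eval, hc, e, e', rf_dom]

lemma dom_of_sig {X : ℕ → Bool} {p : α → Prop} (hp : Sig X p) :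
    ∃ f : α →. ℕ, RecursiveIn {chi X} f ∧ ∀ a, p a ↔ (f a).Dom := by
  obtain ⟨q, hq, e⟩ := hp
  obtain ⟨f, hf, e'⟩ := hq.exists_bool
  have h0 : CI X fun x => bif f x then 0 else 1 := by fun_prop
  have h2 : CI X fun a : α => a := CI.id
  refine ⟨fun a => Nat.rfind fun n => Part.some (f (a, n)),
    (Nat.RecursiveIn.comp (.rfind (ci_iff.1 h0)) (ci_iff.1 h2)).of_eq fun n => ?_,
    fun a => by simp [rf_dom, e, e']⟩
  cases hd : decode (α := α) n with
  | none => simp
  | some a =>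
    simp only [Part.coe_some, Part.bind_some, Part.map_some, Part.bind_eq_bind]
    refine Eq.trans (congrArg Nat.rfind (funext fun m => ?_)) (Part.map_id' (fun _ => rfl) _).symm
    cases h : f (a, m) <;> simp [h]

lemma chi_Kb : chi Kb = halt := funext fun n => by
  by_cases h : ((Denumerable.ofNat Code n).eval n).Dom <;> simp [chi, Kb, halt, h]

instance : IsProbabilityMeasure coin := by
  unfold coin
  infer_instance

lemma cyl_eq {σ : List Bool} {n : ℕ} (h : σ.length = n) :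
    {Z | pre Z n = σ} = Set.pi (range n) fun i => {σ.getD i false} := by
  subst h
  ext Z
  simp only [pre, Set.mem_ofPred_eq, coe_range, Set.mem_pi, Set.mem_Iio, Set.mem_singleton_iff]
  refine ⟨fun h i hi => ?_, fun h => List.ext_getElem (by simp) fun i _ hi => ?_⟩
  · rw [← h, List.getD_eq_getElem _ _ (by simpa using hi)]
    simp
  · simp [h i hi, hi]

lemma set_eq (n : ℕ) (P : List Bool → Prop) : {Z | P (pre Z n)} =
    ⋃ σ ∈ (strs n).filter P, {Z | pre Z n = σ} := by
  ext Z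
  simp [mem_strs, pre_length]

lemma ms_cyl {σ : List Bool} {n : ℕ} (h : σ.length = n) : MeasurableSet {Z | pre Z n = σ} :=
  cyl_eq h ▸ MeasurableSet.pi (countable_toSet _) fun _ _ => measurableSet_singleton _

lemma ms_pre (n : ℕ) (P : List Bool → Prop) : MeasurableSet {Z | P (pre Z n)} :=
  set_eq n P ▸ Finset.measurableSet_biUnion _ fun _ h => ms_cyl (mem_strs.1 (mem_filter.1 h).1)

lemma coin_pre (n : ℕ) (P : List Bool → Prop) : coin.real {Z | P (pre Z n)} = Ex n (ind P) := by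
  rw [set_eq, measureReal_biUnion_finset (fun σ _ τ _ h => Set.disjoint_left.2 fun Z h1 h2 =>
    h (h1.symm.trans h2)) fun _ h => ms_cyl (mem_strs.1 (mem_filter.1 h).1), Ex, sum_div,
    sum_filter]
  refine sum_congr rfl fun σ hσ => ?_
  rw [cyl_eq (mem_strs.1 hσ), Measure.real, coin,
    Measure.infinitePi_pi _ fun _ _ => measurableSet_singleton _]
  simp only [ProbabilityTheory.uniformOn_univ, ind]
  split_ifs <;> simp

/-- measure of a countable union of finitely determined sets -/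
lemma coin_iUnion {ι : Type} [Countable ι] {n : ι → ℕ} {P : ι → List Bool → Prop} {b : ℝ}
    (h : ∀ s : Finset ι, ∑ i ∈ s, Ex (n i) (ind (P i)) ≤ b) :
    coin (⋃ i, {Z | P i (pre Z (n i))}) ≤ ENNReal.ofReal b := by
  refine (measure_iUnion_le _).trans (ENNReal.tsum_eq_iSup_sum ▸ iSup_le fun s => ?_)
  refine le_of_eq_of_le ?_ (ENNReal.ofReal_le_ofReal (h s))
  rw [ENNReal.ofReal_sum_of_nonneg fun i _ => Ex_nonneg fun _ _ => ind_nonneg _ _]
  exact sum_congr rfl fun i _ => by rw [← coin_pre, ofReal_measureReal]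

lemma geo (n : ℕ) : ∑ p ∈ range n, (1 : ℝ) / 2 ^ (p + 1) ≤ 1 := by
  have := sum_geometric_two_le n
  simp only [pow_succ, ← div_div, ← sum_div, ← one_div_pow]
  linarith

theorem countable (hU : Partrec U) : ∃ D : (ℕ → Bool) → ℕ, ∀ Z : ℕ → ℕ → Bool,
    (∀ i, TwoRandom (Z i)) →
      ∃ N : Set ℕ, N.Infinite ∧ ∀ i, {n ∈ N | ¬Inc U (D (Z i) + 3 * i) (Z i) n}.Finite := by
  obtain ⟨st, ap, h1, h2, -, h4, h5⟩ := core (sh := fun _ => 0) (c := fun p => 2 ^ (2 * p + 2))
    (ρ := fun p => p) (sig_bad hU (e := fun p => 3 * p + 3) (by fun_prop)) (CI.const _)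
    (by fun_prop) CI.id fun n => (sum_le_sum fun p _ => (mul_le_mul_of_nonneg_left
      (count_small U _ (3 * p + 3) _ fun _ h => h) (Nat.cast_nonneg _)).trans_eq (by
        push_cast; field_simp; ring)).trans (geo n)
  have h6 : CI Kb st := CI.of_graph (Sig.of_iff
    (p := fun x : ℕ × ℕ => ∃ t, ¬∃ r, ap (t + r) x.1 ≠ x.2)
    (Sig.ex (Sig.of_di (di_halt (Sig.ex (Sig.of_di (by fun_prop)))).not)) fun x => by
      obtain ⟨T, hT⟩ := eventually_atTop.1 (h2 x.1)
      push Not
      exact ⟨fun ⟨t, h⟩ => (hT _ (Nat.le_add_left T t)).symm.trans (h T),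
        fun h => ⟨T, fun r => h ▸ hT _ (Nat.le_add_right T r)⟩⟩)
  have h7 : IsTest fun k => {σ | ∃ y : ℕ × ℕ, σ.length = lev (st (y.1 + 1)) ∧
      Nw (st y.1) (st (y.1 + 1)) (k + y.2) σ} := by
    refine ⟨?_, fun k => ?_⟩
    · obtain ⟨f, f1, f2⟩ := dom_of_sig (X := Kb) (Sig.ex (r := fun (x : ℕ × List Bool) (y : ℕ × ℕ) =>
        x.2.length = lev (st (y.1 + 1)) ∧ Nw (st y.1) (st (y.1 + 1)) (x.1 + y.2) x.2)
        (Sig.of_di (by fun_prop)))
      exact ⟨f, chi_Kb ▸ f1, fun k σ => f2 (k, σ)⟩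
    refine (measure_mono ?_).trans ((coin_iUnion (n := fun y : ℕ × ℕ => lev (st (y.1 + 1)))
      (P := fun y => Nw (st y.1) (st (y.1 + 1)) (k + y.2)) (b := 1 / 2 ^ k) fun s => ?_).trans_eq ?_)
    · rintro Y ⟨n, y, h8, h9⟩
      rw [res_eq, pre_length] at h8
      exact Set.mem_iUnion.2 ⟨y, h8 ▸ h9⟩
    · obtain ⟨J, hJ⟩ : ∃ J, s ⊆ range J ×ˢ range J := ⟨s.sup (fun y => y.1 + y.2) + 1, fun y hy => by
        have := le_sup (f := fun y : ℕ × ℕ => y.1 + y.2) hy
        simp only [mem_product, mem_range]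
        omega⟩
      have h0 : ∀ j p, 0 ≤ Ex (lev (st (j + 1))) (ind (Nw (st j) (st (j + 1)) p)) :=
        fun _ _ => Ex_nonneg fun _ _ => ind_nonneg _ _
      have h8 := h4 J (k + J)
      rw [sum_range_add] at h8
      replace h8 := (le_add_of_nonneg_left (sum_nonneg fun p _ => mul_nonneg (by positivity)
        (sum_nonneg fun j _ => h0 j p))).trans h8
      refine (sum_le_sum_of_subset_of_nonneg hJ fun _ _ _ => h0 _ _).trans ?_
      rw [sum_product_right, le_div_iff₀ (by positivity), ← mul_le_mul_iff_left₀ four_pos, one_mul,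
        mul_assoc, mul_comm, mul_sum]
      refine (sum_le_sum fun p _ => mul_le_mul_of_nonneg_right ?_
        (sum_nonneg fun j _ => h0 j _)).trans h8
      rw [le_div_iff₀ (by positivity)]
      norm_cast
      exact (le_of_eq (by ring)).trans (Nat.pow_le_pow_right two_pos
        (by omega : 2 * k + p + 2 ≤ _))
    · rw [← one_div_pow, ENNReal.ofReal_pow (by norm_num), one_div,
        ENNReal.ofReal_inv_of_pos two_pos, ENNReal.ofReal_ofNat]
  choose! k hk using fun Y (h : TwoRandom Y) => h _ h7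
  refine ⟨fun Y => 3 * k Y + 6, fun Z hZ => ?_⟩
  obtain ⟨φ, f1, f2⟩ := extraction_forall_of_frequently fun m => h5 ℕ (range m) Z
    (fun i => k (Z i) + (i + 1)) ((sum_le_sum fun i _ => one_div_le_one_div_of_le (by positivity)
      (pow_le_pow_right₀ one_le_two (Nat.le_add_left _ _))).trans (geo m))
    fun i _ j h => hk _ (hZ i) ⟨_, (j, i + 1), pre_length _ _, h⟩
  refine ⟨Set.range φ, Set.infinite_range_of_injective f1.injective,
    fun i => ((Set.finite_Iic i).image φ).subset ?_⟩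
  rintro _ ⟨⟨m, rfl⟩, h⟩
  refine ⟨m, (not_lt (a := i)).1 fun hm => h (inc_iff.2 ?_), rfl⟩
  rw [show 3 * k (Z i) + 6 + 3 * i = 3 * (k (Z i) + (i + 1)) + 3 by ring]
  exact f2 m i (mem_range.2 hm)

end Pool.Agent.P.MP_14681b_lc.K
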