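import Pool.Agent.P.MP_14681b_lc.Machine

/-! Fractional covers for families of strings and the potential argument. -/

set_option autoImplicit false

namespace Pool.Agent.P.MP_14681b_lc.K

open Classical Finset

/-- the potential -/
noncomputable def ph (θ t : ℝ) : ℝ := (max (t - θ) 0 ^ 2 - max (t - 2 * θ) 0 ^ 2) / (2 * θ)

/-- its derivative -/
noncomputable def dph (θ t : ℝ) : ℝ := (max (t - θ) 0 - max (t - 2 * θ) 0) / θ

section pot
variable {θ : ℝ} (h : 0 < θ) (t : ℝ)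
include h

lemma ph_nonneg : 0 ≤ ph θ t :=
  div_nonneg (sub_nonneg.2 (pow_le_pow_left₀ (le_max_right _ _)
    (max_le_max (by linarith) le_rfl) 2)) (by linarith)

lemma dph_bd : 0 ≤ dph θ t ∧ dph θ t ≤ 1 ∧ θ * dph θ t ≤ dph θ t * t ∧
    (dph θ t < 1 → t < 2 * θ) := by
  have e : θ * dph θ t = max (t - θ) 0 - max (t - 2 * θ) 0 := mul_div_cancel₀ _ h.ne'
  generalize dph θ t = y at e
  rcases le_total (t - θ) 0 with h1 | h1 <;> rcases le_total (t - 2 * θ) 0 with h2 | h2 <;>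
    simp only [max_eq_right, max_eq_left, h1, h2] at e
  · obtain rfl : y = 0 := by simpa [h.ne'] using e
    exact ⟨le_rfl, zero_le_one, by simp, fun _ => by linarith⟩
  · linarith
  · have : 0 ≤ y := by nlinarith
    exact ⟨this, by nlinarith, by nlinarith, fun _ => by nlinarith⟩
  · obtain rfl : y = 1 := mul_left_cancel₀ h.ne' (by linarith)
    exact ⟨zero_le_one, le_rfl, by linarith, fun h => absurd h (lt_irrefl _)⟩

lemma ph_add (s : ℝ) : ph θ (t + s) ≤ ph θ t + dph θ t * s + s ^ 2 / (2 * θ) := by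
  have k : ∀ x : ℝ, max x 0 ^ 2 + 2 * max x 0 * s ≤ max (x + s) 0 ^ 2 ∧
      max (x + s) 0 ^ 2 ≤ max x 0 ^ 2 + 2 * max x 0 * s + s ^ 2 := fun x => by
    rcases le_total x 0 with h1 | h1 <;> rcases le_total (x + s) 0 with h2 | h2 <;>
      simp only [max_eq_right, max_eq_left, h1, h2] <;> constructor <;> nlinarith [sq_nonneg s]
  have e : ph θ t + dph θ t * s + s ^ 2 / (2 * θ) = (max (t - θ) 0 ^ 2 - max (t - 2 * θ) 0 ^ 2 +
      2 * (max (t - θ) 0 - max (t - 2 * θ) 0) * s + s ^ 2) / (2 * θ) := by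
    unfold ph dph
    field_simp
  rw [e, ph, add_sub_right_comm, add_sub_right_comm]
  exact div_le_div_of_nonneg_right (by linarith [(k (t - θ)).2, (k (t - 2 * θ)).1]) (by linarith)

end pot

lemma mix_le {θ t : ℝ} (h : 0 < θ) (h0 : 0 ≤ t) {l m k n : ℕ} (hlm : l ≤ m) (hmk : m ≤ k)
    (hkn : k ≤ n) {w g : List Bool → ℝ} (hw : ∀ σ, 0 ≤ w σ ∧ w σ ≤ 1)
    (hg : ∀ σ, 0 ≤ g σ ∧ g σ ≤ 1) (P : List Bool → Prop) :
    Ex n (fun σ => w (σ.take l) * ph θ (g (σ.take m) + t * (ind P (σ.take k) - g (σ.take m)))) ≤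
      Ex m (fun σ => w (σ.take l) * ph θ (g σ)) +
        t * (Ex k (fun σ => w (σ.take l) * dph θ (g (σ.take m)) * ind P σ) -
          θ * Ex m (fun σ => w (σ.take l) * dph θ (g σ))) + t ^ 2 / (2 * θ) := by
  rw [← Ex_take (hmk.trans hkn), ← Ex_take (hmk.trans hkn) fun σ => w _ * dph _ _, ← Ex_take hkn,
    ← Ex_mul, ← Ex_sub, ← Ex_mul, ← Ex_add, ← Ex_const n (_ / _), ← Ex_add]
  refine Ex_mono fun σ _ => ?_
  simp only [List.take_take, min_eq_left hlm, min_eq_left hmk, min_eq_left (hlm.trans hmk)]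
  have h1 := ph_add h (g (σ.take m)) (t * (ind P (σ.take k) - g (σ.take m)))
  have h2 := hw (σ.take l)
  have h3 := hg (σ.take m)
  have h4 := ind_nonneg P (σ.take k)
  have h5 := ind_le_one P (σ.take k)
  have h6 := (dph_bd h (g (σ.take m))).2.2.1
  have h7 : (t * (ind P (σ.take k) - g (σ.take m))) ^ 2 / (2 * θ) ≤ t ^ 2 / (2 * θ) := by
    refine div_le_div_of_nonneg_right ?_ (by linarith)
    rw [mul_pow]
    exact mul_le_of_le_one_right (sq_nonneg _) (by nlinarith)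
  have h8 : w (σ.take l) * (t ^ 2 / (2 * θ)) ≤ t ^ 2 / (2 * θ) :=
    mul_le_of_le_one_left (by positivity) h2.2
  have h9 := mul_le_mul_of_nonneg_left (h1.trans (add_le_add_right h7 _)) h2.1
  have h10 := mul_le_mul_of_nonneg_left (mul_le_mul_of_nonneg_left h6 h2.1) h0
  linarith

variable (B : ℕ → List Bool → Prop) (sh : ℕ → ℕ)

/-- the family has a common good time between `l` and `m` -/
def Com (l m : ℕ) (L : List (ℕ × List Bool)) : Prop :=
  ∃ n < m + 1, l ≤ n ∧ ∀ x ∈ L, n + sh x.1 ≤ m ∧ ¬B x.1 (x.2.take (n + sh x.1))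

/-- admissible fractional covers above level `l` -/
def Adm (l m : ℕ) (g : ℕ → List Bool → ℝ) : Prop :=
  l ≤ m ∧ (∀ p σ, 0 ≤ g p σ ∧ g p σ ≤ 1) ∧ ∀ L : List (ℕ × List Bool), (∀ x ∈ L, x.1 < l) →
    (L.map fun x => g x.1 (x.2.take m)).sum < 1 → Com B sh l m L

variable {B sh}

lemma sh_le {p l : ℕ} (h : p < l) : sh p ≤ ∑ p ∈ range l, sh p :=
  single_le_sum (fun _ _ => Nat.zero_le _) (mem_range.2 h)

lemma com_ind {l n : ℕ} (hn : l ≤ n) {L : List (ℕ × List Bool)} (h : ∀ x ∈ L, x.1 < l)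
    (h1 : (L.map fun x => ind (B x.1) (x.2.take (n + sh x.1))).sum < 1) :
    Com B sh l (n + ∑ p ∈ range l, sh p) L := by
  refine ⟨n, by omega, hn, fun x hx => ⟨Nat.add_le_add_left (sh_le (h x hx)) _, fun hB => ?_⟩⟩
  refine h1.not_ge (List.single_le_sum (fun y hy => ?_) _ (List.mem_map.2 ⟨x, hx, if_pos hB⟩))
  obtain ⟨z, -, rfl⟩ := List.mem_map.1 hy
  exact ind_nonneg _ _

lemma adm_mix {l m n : ℕ} {g : ℕ → List Bool → ℝ} (hb : ∀ p σ, 0 ≤ g p σ ∧ g p σ ≤ 1)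
    (hlm : l ≤ m) (hn : m ≤ n) {t : ℝ} (h0 : 0 ≤ t) (h1 : t ≤ 1) (hg : t = 1 ∨ Adm B sh l m g) :
    Adm B sh l (n + ∑ p ∈ range l, sh p) fun p σ =>
      g p (σ.take m) + t * (ind (B p) (σ.take (n + sh p)) - g p (σ.take m)) := by
  refine ⟨by omega, fun p σ => ?_, fun L hL h => ?_⟩
  · have := hb p (σ.take m)
    have := ind_nonneg (B p) (σ.take (n + sh p))
    have := ind_le_one (B p) (σ.take (n + sh p))
    constructor <;> nlinarith
  rw [List.map_congr_left (g := fun x => (1 - t) * g x.1 (x.2.take m) +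
    t * ind (B x.1) (x.2.take (n + sh x.1))) fun x hx => by
      simp only [List.take_take, min_eq_left (hn.trans (Nat.le_add_right _ _)),
        min_eq_left (Nat.add_le_add_left (sh_le (hL x hx)) n)]
      ring, List.sum_map_add, List.sum_map_mul_left, List.sum_map_mul_left] at h
  by_cases h2 : (L.map fun x => ind (B x.1) (x.2.take (n + sh x.1))).sum < 1
  · exact com_ind (hlm.trans hn) hL h2
  rcases hg with rfl | hg
  · exact absurd (by simpa using h) h2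
  obtain ⟨k, k1, k2, k3⟩ := hg.2.2 L hL (not_le.1 fun h3 => by nlinarith [not_lt.1 h2])
  exact ⟨k, by omega, k2, fun x hx => ⟨by have := (k3 x hx).1; omega, (k3 x hx).2⟩⟩

variable {c θ : ℕ → ℝ}

/-- near minimiser with the first order condition -/
lemma exists_near_min (hc : ∀ p, 0 ≤ c p) (hθ : ∀ p, 0 < θ p) (l : ℕ) {w : ℕ → List Bool → ℝ}
    (hw : ∀ p σ, 0 ≤ w p σ ∧ w p σ ≤ 1) {δ : ℝ} (hδ : 0 < δ) :
    ∃ m g, Adm B sh l m g ∧ ∀ n, m ≤ n → 0 ≤ δ + ∑ p ∈ range l, c p *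
      (Ex (n + sh p) (fun σ => w p (σ.take l) * dph (θ p) (g p (σ.take m)) * ind (B p) σ) -
        θ p * Ex m fun σ => w p (σ.take l) * dph (θ p) (g p σ)) := by
  set J : ℕ → (ℕ → List Bool → ℝ) → ℝ := fun m g =>
    ∑ p ∈ range l, c p * Ex m fun σ => w p (σ.take l) * ph (θ p) (g p σ) with hJ
  set T : Set ℝ := {r | ∃ m g, Adm B sh l m g ∧ r = J m g}
  have hne : T.Nonempty := ⟨_, _, _, adm_mix (g := 0) (fun _ _ => by simp) le_rfl le_rfl
    zero_le_one le_rfl (Or.inl rfl), rfl⟩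
  have hbd : BddBelow T := ⟨0, by
    rintro r ⟨m, g, -, rfl⟩
    exact sum_nonneg fun p _ => mul_nonneg (hc p)
      (Ex_nonneg fun σ _ => mul_nonneg (hw _ _).1 (ph_nonneg (hθ p) _))⟩
  set K := ∑ p ∈ range l, c p / (2 * θ p) with hK
  have hK0 : 0 ≤ K := sum_nonneg fun p _ => div_nonneg (hc p) (by linarith [hθ p])
  set t : ℝ := min 1 (δ / (K + 1)) with ht
  have ht0 : 0 < t := lt_min one_pos (by positivity)
  have ht2 : t * (K + 1) ≤ δ := (le_div_iff₀ (by positivity)).1 (min_le_right _ _)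
  obtain ⟨r, ⟨m, g, hg, rfl⟩, hr⟩ := Real.lt_sInf_add_pos hne (pow_pos ht0 2)
  refine ⟨m, g, hg, fun n hn => ?_⟩
  have hle := (csInf_le hbd ⟨_, _, adm_mix hg.2.1 hg.1 hn ht0.le (min_le_left _ _) (Or.inr hg),
    rfl⟩).trans (sum_le_sum fun p hp => mul_le_mul_of_nonneg_left (mix_le (hθ p) ht0.le hg.1
      (hn.trans (Nat.le_add_right _ _)) (Nat.add_le_add_left (sh_le (mem_range.1 hp)) _) (hw p)
      (hg.2.1 p) (B p)) (hc p))
  simp only [mul_add, sum_add_distrib, mul_left_comm _ t, ← mul_sum] at hle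
  have e : ∑ p ∈ range l, c p * (t ^ 2 / (2 * θ p)) = t ^ 2 * K := by
    rw [hK, mul_sum]
    exact sum_congr rfl fun p _ => by ring
  refine le_of_mul_le_mul_left ?_ ht0
  simp only [hJ] at hr
  nlinarith

lemma sum_cut {l n : ℕ} (h : l ≤ n) (F : ℕ → ℝ) :
    ∑ p ∈ range l, F p = ∑ p ∈ range n, if p < l then F p else 0 := by
  rw [← sum_filter]
  exact sum_congr (by ext; simp; omega) fun _ _ => rfl

variable (B sh c θ) in
/-- the budget at time `n` -/
noncomputable def Bud (l : ℕ) (α : ℕ → List Bool → ℝ) (n : ℕ) : ℝ := ∑ p ∈ range n, c p *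
  (Ex (n + sh p) (fun σ => ind (B p) σ * (1 - α p (σ.take l))) + θ p * Ex l (α p))

/-- one step of the construction, real valued form -/
lemma exists_step (hc : ∀ p, 0 ≤ c p) (hθ : ∀ p, 0 < θ p) (l : ℕ) {α : ℕ → List Bool → ℝ}
    (hα : ∀ p σ, 0 ≤ α p σ ∧ α p σ ≤ 1) {δ : ℝ} (hδ : 0 < δ) :
    ∃ (m : ℕ) (β : ℕ → List Bool → ℝ), l ≤ m ∧ (∀ p σ, α p (σ.take l) ≤ β p σ ∧ β p σ ≤ 1) ∧
      (∀ p σ, l ≤ p → β p σ = α p (σ.take l)) ∧
      (∀ n, m ≤ n → Bud B sh c θ m β n ≤ Bud B sh c θ l α n + δ) ∧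
      ∀ L : List (ℕ × List Bool), (∀ x ∈ L, x.1 < l ∧ β x.1 (x.2.take m) < 1) →
        (L.map fun x => 2 * θ x.1).sum ≤ 1 → Com B sh l m L := by
  obtain ⟨m, g, hg, hfo⟩ := exists_near_min (B := B) (sh := sh) hc hθ l
    (w := fun p σ => 1 - α p σ) (fun p σ => by have := hα p σ; constructor <;> linarith) hδ
  have hlm : l ≤ m := hg.1
  refine ⟨m, fun p σ => α p (σ.take l) + if p < l then (1 - α p (σ.take l)) * dph (θ p) (g p σ)
    else 0, hlm, fun p σ => ?_, fun p σ h => by simp [h.not_gt], fun n hn => ?_, fun L hL h => ?_⟩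
  · have h1 := hα p (σ.take l)
    have h2 := dph_bd (hθ p) (g p σ)
    dsimp only
    split_ifs <;> constructor <;> nlinarith [h2.1, h2.2.1]
  · have h1 := hfo n hn
    rw [sum_cut (hlm.trans hn)] at h1
    rw [← sub_nonneg, add_comm, add_sub_assoc, Bud, Bud, ← sum_sub_distrib]
    refine h1.trans_eq (congrArg _ (sum_congr rfl fun p hp => ?_))
    have e : ∀ σ : List Bool, (σ.take m).take l = σ.take l := fun σ => by
      rw [List.take_take, min_eq_left hlm]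
    split_ifs
    · rw [Ex_add, Ex_take hlm, ← mul_sub, add_sub_add_comm, ← Ex_sub, mul_add (θ p), sub_add_cancel_left,
        ← sub_eq_add_neg]
      congr 2
      exact Ex_congr fun σ _ => by rw [e]; ring
    · simp only [e, add_zero, sub_self, Ex_take hlm]
  · rcases L with _ | ⟨y, L⟩
    · exact hg.2.2 _ (by simp) (by simp)
    refine hg.2.2 _ (fun x hx => (hL x hx).1) (lt_of_lt_of_le (List.sum_lt_sum_of_ne_nil (by simp)
      _ _ fun x hx => (dph_bd (hθ x.1) _).2.2.2 ?_) h)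
    have h1 := (hL x hx).2
    have h2 := hα x.1 ((x.2.take m).take l)
    have h3 := dph_bd (hθ x.1) (g x.1 (x.2.take m))
    simp only [(hL x hx).1, if_true] at h1
    nlinarith [h3.1, h3.2.1]

end Pool.Agent.P.MP_14681b_lc.K
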