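import Pool.Agent.P.MP_14681b_lc.K.Upper

/-! The lower bound for finite families. -/

set_option autoImplicit false

namespace Pool.Agent.P.MP_14681b_lc.K

open Classical Finset Filter MeasureTheory Pool.Agent.P.MP_9014a2_lc Pool.Agent.Lib.Helper43

variable {U : List Bool →. List Bool}

lemma mp_xor (m : ℕ → Bool) : MeasurePreserving (fun Z t => xor (Z t) (m t)) coin coin := by
  refine ⟨measurable_pi_lambda _ fun t => (measurable_of_finite (xor · (m t))).comp
    (measurable_pi_apply t), (Measure.infinitePi_map_pi _ (f := fun t x => xor x (m t))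
      fun _ => measurable_of_finite _).trans (congrArg _ (funext fun t => ?_))⟩
  refine Measure.ext_iff_singleton.2 fun x => ?_
  rw [Measure.map_apply (measurable_of_finite _) (measurableSet_singleton _),
    show (fun x => xor x (m t)) ⁻¹' {x} = {xor x (m t)} by
      ext y; cases x <;> cases y <;> cases m t <;> simp]
  simp only [ProbabilityTheory.uniformOn_univ, Measure.count_singleton]

lemma pre_getD (Z : ℕ → Bool) {m t : ℕ} (h : t < m) : (pre Z m).getD t false = Z t := by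
  rw [List.getD_eq_getElem _ _ (by simpa [pre] using h)]
  simp [pre]

/-- sequences which vanish at the first `i` chosen positions -/
def Rg (s : ℕ) (τ : ℕ → ℕ) (i : ℕ) : Set (ℕ → Bool) := {Z | ∀ r < i, Z (s * τ r + r) = false}

lemma coin_Rg {s i : ℕ} (τ : ℕ → ℕ) (h : i ≤ s) :
    MeasurableSet (Rg s τ i) ∧ coin.real (Rg s τ i) = 1 / 2 ^ i := by
  have e : Rg s τ i = Set.pi ((range i).image fun r => s * τ r + r) fun _ => {false} := by
    ext Z
    simp [Rg]
  refine e ▸ ⟨MeasurableSet.pi (countable_toSet _) fun _ _ => measurableSet_singleton _, ?_⟩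
  rw [Measure.real, coin, Measure.infinitePi_pi _ fun _ _ => measurableSet_singleton _]
  simp only [ProbabilityTheory.uniformOn_univ, Measure.count_singleton, prod_const]
  rw [card_image_of_injOn fun r hr r' hr' e => by
    simpa [Nat.mod_eq_of_lt ((mem_range.1 hr).trans_le h),
      Nat.mod_eq_of_lt ((mem_range.1 hr').trans_le h)] using congrArg (· % s) e]
  simp

/-- a list built term by term -/
def bld (φ : List ℕ → ℕ) (i : ℕ) : List ℕ := Nat.rec [] (fun _ l => l ++ [φ l]) i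

lemma bld_eq (φ : List ℕ → ℕ) (i : ℕ) : bld φ i = (List.range i).map fun r => φ (bld φ r) := by
  induction i with
  | zero => rfl
  | succ i ih => rw [List.range_succ, List.map_append, ← ih]; rfl

@[simp] lemma bld_length (φ : List ℕ → ℕ) (i : ℕ) : (bld φ i).length = i := by
  rw [bld_eq]; simp

lemma mem_bld {φ : List ℕ → ℕ} {i t : ℕ} : t ∈ bld φ i ↔ ∃ r < i, φ (bld φ r) = t := by
  rw [bld_eq]; simp

/-- strings which vanish at the chosen positions -/
def Zr (s : ℕ) (l : List ℕ) (σ : List Bool) : Prop :=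
  ∀ r < l.length, σ.getD (s * l.getD r 0 + r) false = false

lemma zr_iff {s i J m : ℕ} {φ : List ℕ → ℕ} (h : i ≤ s) (h1 : ∀ t ∈ bld φ i, t < J)
    (h2 : s * J ≤ m) (Z : ℕ → Bool) :
    Zr s (bld φ i) (pre Z m) ↔ Z ∈ Rg s (fun r => φ (bld φ r)) i := by
  refine forall_congr' fun r => ?_
  rw [bld_length]
  refine imp_congr_right fun hr => ?_
  have : (bld φ i).getD r 0 = φ (bld φ r) := by
    rw [bld_eq, List.getD_eq_getElem _ _ (by simpa using hr)]; simp
  rw [this, pre_getD _ (by nlinarith [h1 _ (mem_bld.2 ⟨r, hr, rfl⟩)])]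

/-- the part of the test that is seen at stage `J` -/
def Ws (f : ℕ → ℕ) (g J : ℕ) (σ : List Bool) : Prop :=
  ∃ j < J, lev (f (j + 1)) ≤ J ∧ Nw (f j) (f (j + 1)) g σ

/-- the next position can be chosen in block `J` -/
def Mv (a f : ℕ → ℕ) (s b : ℕ) (l : List ℕ) (J : ℕ) : Prop :=
  (∀ t ∈ l, t < J) ∧ (l.length < a (s - l.length) + b ∨ ¬Ex (s * J)
    (ind fun σ => Zr s l σ ∧ Ws f (l.length - a (s - l.length) - b) J σ) ≤ 3 / 2 ^ (l.length + 2))

lemma mv_congr {a f f' : ℕ → ℕ} {s b J : ℕ} {l : List ℕ} (h : ∀ j ∈ range (J + 1), f j = f' j) :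
    Mv a f s b l J ↔ Mv a f' s b l J := by
  have : ∀ g, Ws f g J = Ws f' g J := fun g => funext fun σ => propext (exists_congr fun j =>
    and_congr_right fun hj => by rw [h j (by simp; omega), h (j + 1) (by simpa using hj)])
  simp only [Mv, this]

/-- the guess for the next block at time `n` -/
noncomputable def nx (a : ℕ → ℕ) (ap : ℕ → ℕ → ℕ) (s b n : ℕ) (l : List ℕ) : ℕ :=
  Nat.find (⟨_, Or.inl rfl⟩ : ∃ J, J = n / s - 1 ∨ Mv a (ap n) s b l J)

lemma di_Zr {α : Type} [Primcodable α] {s : α → ℕ} {l : α → List ℕ} {σ : α → List Bool}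
    (hs : CI O0 s) (hl : CI O0 l) (hσ : CI O0 σ) : DI O0 fun x => Zr (s x) (l x) (σ x) :=
  DI.allLt (by fun_prop) (by fun_prop)

lemma ci_bld {a : ℕ → ℕ} {ap : ℕ → ℕ → ℕ} (ha : CI O0 a) (hp : CI O0 fun x : ℕ × ℕ => ap x.1 x.2) :
    CI O0 fun x : ℕ × ℕ × ℕ => bld (nx a ap x.1 x.2.1 x.2.2) x.1 := by
  have h1 : CI O0 fun x : (ℕ × ℕ × ℕ) × ℕ × List ℕ => nx a ap x.1.1 x.1.2.1 x.1.2.2 x.2.2 :=
    CI.find (DI.or (by fun_prop) (DI.and (DI.allL (by fun_prop) (by fun_prop)) (DI.or (by fun_prop)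
      (DI.not (CR.le (CR.ex (CR.ind (P := fun x : ((ℕ × ℕ × ℕ) × ℕ × List ℕ) × ℕ => fun σ =>
        Zr x.1.1.1 x.1.2.2 σ ∧ Ws (ap x.1.1.2.2) (x.1.2.2.length -
          a (x.1.1.1 - x.1.2.2.length) - x.1.1.2.1) x.2 σ)
        ((di_Zr (by fun_prop) (by fun_prop) (by fun_prop)).and
          (DI.exLt (by fun_prop) (by fun_prop)))) (by fun_prop))
        (by simpa using (CR.nat (CI.const 3)).div (by fun_prop))))))) _
  exact CI.natRec (by fun_prop) (CI.const _) (by fun_prop)

/-- not all the moves are possible -/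
lemma exists_stop {a st : ℕ → ℕ} {s b : ℕ} (h3 : ∀ j, lev (st j) < lev (st (j + 1)))
    (h4 : ∀ J n, ∑ p ∈ range n, (2 : ℝ) ^ p * ∑ j ∈ range J,
      Ex (lev (st (j + 1))) (ind (Nw (st j) (st (j + 1)) p)) ≤ 1)
    (hs : ¬∑ i ∈ range s, (1 : ℝ) / 2 ^ a (s - i) ≤ 2 ^ (b + 3)) :
    ∃ i < s, ¬∃ J, Mv a st s b (bld (fun l => sInf {J | Mv a st s b l J}) i) J := by
  set φ : List ℕ → ℕ := fun l => sInf {J | Mv a st s b l J}
  set τ : ℕ → ℕ := fun r => φ (bld φ r)
  by_contra! H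
  replace H : ∀ i < s, Mv a st s b (bld φ i) (τ i) := fun i hi => Nat.sInf_mem (H i hi)
  let g : ℕ → ℕ := fun i => i - a (s - i) - b
  let E : ℕ → Set (ℕ → Bool) := fun i => {Z | Zr s (bld φ i) (pre Z (s * τ i)) ∧
    Ws st (g i) (τ i) (pre Z (s * τ i))} \ Rg s τ (i + 1)
  have e1 : ∀ i < s, ∀ Z ∈ E i, Z ∈ Rg s τ i := fun i hi Z h =>
    (zr_iff hi.le (H i hi).1 le_rfl Z).1 h.1.1
  have e2 : ∀ i ∈ range s, (1 : ℝ) / 2 ^ a (s - i) ≤
      2 ^ b * (1 / 2) ^ i + 2 ^ (b + 2) * (2 ^ g i * coin.real (E i)) := fun i hi => by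
    by_cases h : i < a (s - i) + b
    · refine le_add_of_le_of_nonneg ?_ (by positivity)
      rw [one_div_pow, mul_one_div, div_le_div_iff₀ (by positivity) (by positivity), one_mul,
        ← pow_add]
      exact pow_le_pow_right₀ one_le_two (by omega)
    have h1 := (H i (mem_range.1 hi)).2
    simp only [bld_length, h, false_or, not_le] at h1
    have h2 : _ ≤ coin.real (E i) := le_measureReal_sdiff
    rw [coin_pre _ fun σ => Zr s (bld φ i) σ ∧ Ws st (g i) (τ i) σ,
      (coin_Rg τ (mem_range.1 hi)).2] at h2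
    have h5 : (1 : ℝ) / 2 ^ (i + 2) ≤ coin.real (E i) :=
      le_trans (le_of_eq (by rw [Nat.succ_eq_add_one]; field_simp; ring))
        ((sub_le_sub_right h1.le _).trans h2)
    refine le_add_of_nonneg_of_le (by positivity) (le_trans (le_of_eq ?_)
      (mul_le_mul_of_nonneg_left (mul_le_mul_of_nonneg_left h5 (by positivity)) (by positivity)))
    rw [show i + 2 = b + 2 + g i + a (s - i) by simp only [g]; omega]
    field_simp
    ring
  have e3 : ∑ i ∈ range s, (2 : ℝ) ^ g i * coin.real (E i) ≤ 1 := by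
    rw [← sum_fiberwise_of_maps_to (t := range s) (g := g) fun i hi => mem_range.2 (by
      have := mem_range.1 hi; simp only [g]; omega)]
    refine (sum_le_sum fun p _ => ?_).trans (h4 ((range s).sup τ) s)
    rw [sum_congr rfl fun i hi => by rw [(mem_filter.1 hi).2], ← mul_sum,
      ← measureReal_biUnion_finset _ fun i hi => (ms_pre _ fun σ => Zr s (bld φ i) σ ∧
        Ws st (g i) (τ i) σ).diff (coin_Rg τ (mem_range.1 (mem_filter.1 hi).1)).1]
    · simp only [← coin_pre]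
      refine mul_le_mul_of_nonneg_left (le_trans (measureReal_mono (fun Z hZ => ?_)
        (measure_ne_top _ _))        (measureReal_biUnion_finset_le _ _)) (by positivity)
      simp only [Set.mem_iUnion, mem_filter, exists_prop] at hZ ⊢
      obtain ⟨i, ⟨hi, rfl⟩, ⟨-, j, j1, j2, j3⟩, -⟩ := hZ
      refine ⟨j, mem_range.2 (j1.trans_le (le_sup hi)), ?_⟩
      rwa [← nw_take (h3 j).le le_rfl, pre_take _ (by nlinarith [mem_range.1 hi])] at j3
    · refine fun i hi i' hi' h => Set.disjoint_left.2 fun Z h1 h2 => ?_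
      rcases lt_or_gt_of_ne h with h | h
      · exact h1.2 fun r hr => e1 i' (mem_range.1 (mem_filter.1 hi').1) Z h2 r (by omega)
      · exact h2.2 fun r hr => e1 i (mem_range.1 (mem_filter.1 hi).1) Z h1 r (by omega)
  refine hs ((sum_le_sum e2).trans ?_)
  rw [sum_add_distrib, ← mul_sum, ← mul_sum]
  have := sum_geometric_two_le s
  have : (0 : ℝ) < 2 ^ b := by positivity
  simp only [pow_add] at *
  nlinarith

/-- the guesses converge up to the first impossible move, and then tend to infinity -/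
lemma ev_bld {a st : ℕ → ℕ} {ap : ℕ → ℕ → ℕ} {s b i : ℕ} (hs : 0 < s)
    (h2 : ∀ j, ∀ᶠ t in atTop, ap t j = st j) {φ : List ℕ → ℕ}
    (hφ : φ = fun l => sInf {J | Mv a st s b l J}) (H : ∀ r < i, ∃ J, Mv a st s b (bld φ r) J)
    (H' : ¬∃ J, Mv a st s b (bld φ i) J) (N : ℕ) : ∀ᶠ n in atTop,
      (∀ r < i, nx a ap s b n (bld (nx a ap s b n) r) = φ (bld φ r)) ∧
        ∀ r, i ≤ r → N ≤ nx a ap s b n (bld (nx a ap s b n) r) := by
  have k : ∀ N, ∀ᶠ n in atTop, N < n / s - 1 ∧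
      ∀ J ≤ N, ∀ l, Mv a (ap n) s b l J ↔ Mv a st s b l J := fun N => by
    filter_upwards [(eventually_all_finset (range (N + 1))).2 fun j _ => h2 j,
      eventually_ge_atTop ((N + 2) * s)] with n n1 n2
    exact ⟨by have := (Nat.le_div_iff_mul_le hs).2 n2; omega, fun J hJ l =>
      mv_congr fun j hj => n1 j (range_subset_range.2 (by omega) hj)⟩
  have k1 : ∀ r < i, ∀ᶠ n in atTop, nx a ap s b n (bld φ r) = φ (bld φ r) := fun r hr => by
    filter_upwards [k (φ (bld φ r))] with n hn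
    refine (Nat.find_eq_iff _).2 ⟨Or.inr ((hn.2 _ le_rfl _).2 ?_), fun J hJ h => ?_⟩
    · exact hφ ▸ Nat.sInf_mem (hφ ▸ H r hr)
    · exact h.elim (by omega) fun h => Nat.notMem_of_lt_sInf
        (s := {J | Mv a st s b (bld φ r) J}) (by simpa only [hφ] using hJ) ((hn.2 J hJ.le _).1 h)
  filter_upwards [(eventually_all_finset (range i)).2 fun r hr => k1 r (mem_range.1 hr), k N]
    with n n1 n2
  have k2 : ∀ r ≤ i, bld (nx a ap s b n) r = bld φ r := fun r hr => by
    induction r with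
    | zero => rfl
    | succ r ih =>
      change bld _ r ++ [nx a ap s b n (bld _ r)] = bld φ r ++ [φ (bld φ r)]
      rw [ih (by omega), n1 r (mem_range.2 hr)]
  refine ⟨fun r hr => by rw [k2 r hr.le, n1 r (mem_range.2 hr)], fun r hr => ?_⟩
  induction r, hr using Nat.le_induction with
  | base =>
    rw [k2 i le_rfl]
    exact (Nat.le_find_iff _ _).2 fun J hJ h =>
      h.elim (by omega) fun h => H' ⟨J, (n2.2 J hJ.le _).1 h⟩
  | succ r _ ih =>
    exact (Nat.le_find_iff _ _).2 fun J hJ h => h.elim (by omega) fun h =>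
      (h.1 _ (mem_bld.2 ⟨r, r.lt_succ_self, rfl⟩)).not_ge (hJ.le.trans ih)

theorem lower (hU : Optimal U) {a : ℕ → ℕ} (ha : CI O0 a)
    (hs : ¬Summable fun j => (1 / 2 : ℝ) ^ a j) (c : ℕ) :
    ∃ (j d : ℕ) (F : Finset (ℕ → Bool)), F.card ≤ 2 ^ j ∧
      (∀ Z ∈ F, ∃ᶠ n in atTop, Inc U d Z n) ∧
        ∀ᶠ n in atTop, ∃ Z ∈ F, ¬Inc U (d + j + a j + c) Z n := by
  obtain ⟨st, ap, h1, h2, h3, h4, h5⟩ := core (X := O0) (sh := fun p => p + 2)
    (c := fun p => 2 ^ (p + 2)) (ρ := fun _ => 0)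
    (sig_bad hU.1 (e := fun p => p + 2) (by fun_prop)) (by fun_prop) (by fun_prop) (by fun_prop)
    fun n => by simpa using budget (U := U) n (range n) (e := fun p => p + 2) fun _ _ _ _ => by simp
  replace h4 : ∀ J n, ∑ p ∈ range n, (2 : ℝ) ^ p * ∑ j ∈ range J,
      Ex (lev (st (j + 1))) (ind (Nw (st j) (st (j + 1)) p)) ≤ 1 := fun J n => by
    have := h4 J n
    simp only [pow_add, Nat.cast_mul, Nat.cast_pow, Nat.cast_ofNat, pow_zero, div_one,
      mul_right_comm _ ((2 : ℝ) ^ 2), ← sum_mul] at this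
    linarith
  have hS : ∀ b, ∃ s, ¬∑ i ∈ range s, (1 : ℝ) / 2 ^ a (s - i) ≤ 2 ^ (2 * b + 3) := fun b => by
    obtain ⟨s, h⟩ := (((not_summable_iff_tendsto_nat_atTop_of_nonneg fun _ => by positivity).1
      (mt (summable_nat_add_iff 1).1 hs)).eventually_gt_atTop (2 ^ (2 * b + 3))).exists
    refine ⟨s, not_le.2 (h.trans_eq ?_)⟩
    rw [← sum_range_reflect]
    exact sum_congr rfl fun i hi => by
      rw [one_div_pow, show s - 1 - i + 1 = s - i by have := mem_range.1 hi; omega]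
  have h6 : CI O0 fun b => Nat.find (hS b) := CI.find (DI.not (CR.le (CR.rsum (CR.one.div
    (by fun_prop)) (by fun_prop)) (by simpa using CR.nat (by fun_prop :
      CI O0 fun x : ℕ × ℕ => 2 ^ (2 * x.1 + 3))))) hS
  obtain ⟨S, h6, hS⟩ : ∃ S : ℕ → ℕ, CI O0 S ∧ ∀ b, ¬∑ i ∈ range (S b),
    (1 : ℝ) / 2 ^ a (S b - i) ≤ 2 ^ (2 * b + 3) := ⟨_, h6, fun b => Nat.find_spec (hS b)⟩
  obtain ⟨c', hc⟩ := list_machine hU (Λ := fun b l => (allStr (l + S b)).filter fun σ =>
    decide (Zr (S b) (bld (nx a ap (S b) (2 * b) (l + S b)) (S b)) σ))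
    (CI.filter (CI.decide (di_Zr (by fun_prop) ((ci_bld ha h1).comp
      (g := fun x : (ℕ × ℕ) × List Bool => (S x.1.1, 2 * x.1.1, x.1.2 + S x.1.1)) (by fun_prop))
      (by fun_prop))) (by fun_prop))
  specialize hc (c + c' + 3)
  have h8 := exists_stop h3 h4 (hS (c + c' + 3))
  generalize S (c + c' + 3) = s at hc h8
  set b := 2 * (c + c' + 3) with hb
  set φ : List ℕ → ℕ := fun l => sInf {J | Mv a st s b l J} with hφ
  obtain ⟨i, ⟨i1, i2⟩, i3⟩ : ∃ i, (i < s ∧ ¬∃ J, Mv a st s b (bld φ i) J) ∧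
      ∀ r < i, ∃ J, Mv a st s b (bld φ r) J := ⟨Nat.find h8, Nat.find_spec h8, fun r hr =>
    not_not.1 fun h => Nat.find_min h8 hr ⟨hr.trans (Nat.find_spec h8).1, h⟩⟩
  set g := i - a (s - i) - b with hg
  have m0 : ∀ j, 0 ≤ Ex (lev (st (j + 1))) (ind (Nw (st j) (st (j + 1)) g)) :=
    fun _ => Ex_nonneg fun _ _ => ind_nonneg _ _
  have m1 : Summable fun j => Ex (lev (st (j + 1))) (ind (Nw (st j) (st (j + 1)) g)) :=
    summable_of_sum_range_le m0 (c := 1) fun J => (le_mul_of_one_le_left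
      (sum_nonneg fun j _ => m0 j) (one_le_pow₀ one_le_two)).trans ((single_le_sum
        (f := fun p => (2 : ℝ) ^ p * ∑ j ∈ range J, Ex (lev (st (j + 1)))
          (ind (Nw (st j) (st (j + 1)) p))) (fun p _ => mul_nonneg (by positivity) (sum_nonneg
            fun _ _ => Ex_nonneg fun _ _ => ind_nonneg _ _)) (self_mem_range_succ g)).trans (h4 J _))
  obtain ⟨J₀, m2⟩ := ((tendsto_sum_nat_add fun j => Ex (lev (st (j + 1)))
    (ind (Nw (st j) (st (j + 1)) g))).eventually
      (ge_mem_nhds (by positivity : (0 : ℝ) < 1 / 2 ^ (s + 3)))).exists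
  obtain ⟨J, J1, J2, J3⟩ := ((eventually_ge_atTop J₀).and (((eventually_all_finset (range J₀)).2
    fun j _ => eventually_ge_atTop (lev (st (j + 1)))).and ((eventually_all_finset
      (bld φ i).toFinset).2 fun t _ => eventually_gt_atTop t))).exists
  simp only [List.mem_toFinset] at J3
  have m3 := not_or.1 fun h => i2 ⟨J, J3, h⟩
  simp only [bld_length, not_lt, not_not, ← hg, ← coin_pre] at m3
  let xr : Finset ℕ → (ℕ → Bool) → ℕ → Bool := fun β Z t =>
    xor (Z t) (decide (s * J ≤ t ∧ t % s ∈ β))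
  set T := ⋃ k, {Z | Nw (st (k + J₀)) (st (k + J₀ + 1)) g (pre Z (lev (st (k + J₀ + 1))))} with hT
  have m4 : ∀ β, coin.real (xr β ⁻¹' T) ≤ 1 / 2 ^ (s + 3) := fun β => by
    rw [(mp_xor _).measureReal_preimage (MeasurableSet.iUnion fun k => ms_pre _ _).nullMeasurableSet]
    exact ENNReal.toReal_le_of_le_ofReal (by positivity) (coin_iUnion fun t =>
      (((summable_nat_add_iff J₀).2 m1).sum_le_tsum t fun k _ => m0 _).trans m2)
  obtain ⟨Z, z1, z2⟩ := Set.not_subset.1 fun h : Rg s (fun r => φ (bld φ r)) i ⊆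
      {Z | Zr s (bld φ i) (pre Z (s * J)) ∧ Ws st g J (pre Z (s * J))} ∪
        ⋃ β ∈ (Ico i s).powerset, xr β ⁻¹' T => by
    have := (measureReal_mono h).trans ((measureReal_union_le _ _).trans (add_le_add m3.2
      ((measureReal_biUnion_finset_le _ _).trans (sum_le_card_nsmul _ _ _ fun β _ => m4 β))))
    rw [(coin_Rg _ i1.le).2, card_powerset, Nat.card_Ico, nsmul_eq_mul,
      show s + 3 = s - i + i + 3 by omega] at this
    push_cast at this
    field_simp at this
    ring_nf at this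
    nlinarith [(by positivity : (0 : ℝ) < 2 ^ (i * 2) * 2 ^ (s - i))]
  simp only [Set.mem_union, Set.mem_iUnion, not_or, not_exists, Set.mem_ofPred_eq,
    (zr_iff i1.le J3 le_rfl Z).2 z1, true_and] at z2
  refine ⟨s - i, g + 2, (Ico i s).powerset.image (xr · Z),
    card_image_le.trans (by simp), fun Y hY => ?_, ?_⟩
  · obtain ⟨β, hβ, rfl⟩ := mem_image.1 hY
    refine (freq_inc (h5 _ {xr β Z} id (fun _ => g) (by simp) fun Y hY j h => ?_)).mono
      fun n h => h _ (mem_singleton_self _)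
    rw [mem_singleton.1 hY] at h
    rcases lt_or_ge j J₀ with hj | hj
    · have h9 : lev (st (j + 1)) ≤ s * J := by nlinarith [J2 j (mem_range.2 hj)]
      refine z2.1 ⟨j, hj.trans_le J1, J2 j (mem_range.2 hj), ?_⟩
      rw [← nw_take (h3 j).le le_rfl, pre_take _ h9]
      convert h using 1
      refine congrArg List.ofFn (funext fun t => ?_)
      simp [xr, (t.2.trans_le h9).not_ge]
    · obtain ⟨k, rfl⟩ := Nat.exists_eq_add_of_le' hj
      exact z2.2 β hβ (Set.mem_iUnion.2 ⟨k, h⟩)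
  rw [← map_add_atTop_eq_nat s, eventually_map]
  filter_upwards [(tendsto_add_atTop_nat s).eventually (ev_bld (by omega) h2 hφ i3 i2 J)]
    with l ⟨l1, l2⟩
  set ψ := nx a ap s b (l + s)
  have l3 : ∀ t ∈ bld ψ s, t < (l + s) / s := fun t ht => by
    obtain ⟨r, -, rfl⟩ := mem_bld.1 ht
    have : ψ (bld ψ r) ≤ (l + s) / s - 1 := Nat.find_le (Or.inl rfl)
    have : 0 < (l + s) / s := Nat.div_pos (by omega) (by omega)
    omega
  have l4 := zr_iff le_rfl l3 (Nat.mul_div_le _ _)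
  refine ⟨xr ((Ico i s).filter fun r => Z (s * ψ (bld ψ r) + r) = true) Z,
    mem_image_of_mem _ (mem_powerset.2 (filter_subset _ _)), fun h => ?_⟩
  have l5 := le_trans h (add_le_add_left (hc l _ [] (List.append_nil _).symm ?_ _
    (List.mem_filter.2 ⟨(mem_allStr _ _).2 (pre_length _ _), decide_eq_true ((l4 _).2 ?_)⟩)) _)
  · norm_cast at l5
    omega
  · rw [← Nat.cast_le (α := ℝ), length_filter, ← coin_pre]
    rw [show {Z | Zr s (bld ψ s) (pre Z (l + s))} = _ from Set.ext l4, (coin_Rg _ le_rfl).2]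
    simp [pow_add]
  · intro r hr
    rcases lt_or_ge r i with h9 | h9
    · have := J3 _ (mem_bld.2 ⟨r, h9, rfl⟩)
      simp only [xr, l1 r h9, z1 r h9, Bool.false_xor, decide_eq_false_iff_not]
      exact fun h => by nlinarith [h.1]
    · have : s * J ≤ s * ψ (bld ψ r) + r := le_add_right (Nat.mul_le_mul_left _ (l2 r h9))
      simp [xr, this, Nat.mod_eq_of_lt hr, h9, hr]

end Pool.Agent.P.MP_14681b_lc.K
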