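import Pool.Agent.P.MP_14681b_lc.K.Count

/-! The upper bound for finite families. -/

set_option autoImplicit false

namespace Pool.Agent.P.MP_14681b_lc.K

open Classical Finset Filter Pool.Agent.P.MP_9014a2_lc Pool.Agent.Lib.Helper43

variable {U : List Bool →. List Bool}

lemma length_allStr (n : ℕ) : (allStr n).length = 2 ^ n := by
  rw [← card_strs, strs, List.toFinset_card_of_nodup (nodup_allStr n)]

lemma card_ind (n : ℕ) (P : List Bool → Prop) :
    (((strs n).filter P).card : ℝ) = 2 ^ n * Ex n (ind P) := by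
  rw [Ex, mul_div_cancel₀ _ (by positivity), ← sum_boole]
  rfl

lemma length_filter (n : ℕ) (P : List Bool → Prop) :
    (((allStr n).filter fun σ => decide (P σ)).length : ℝ) = 2 ^ n * Ex n (ind P) := by
  rw [← card_ind, ← List.toFinset_card_of_nodup ((nodup_allStr n).filter _), List.toFinset_filter]
  simp [strs]

@[fun_prop] lemma ci_idxOf {α β : Type} [Primcodable α] [Primcodable β] [i : BEq β] [LawfulBEq β]
    {X : ℕ → Bool} {f : α → β} {l : α → List β} (hf : CI X f) (hl : CI X l) :
    CI X fun a => (l a).idxOf (f a) := by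
  obtain rfl : i = instBEqOfDecidableEq := lawful_beq_subsingleton _ _
  exact (CI.of_comp Primrec.list_idxOf.to_comp).comp (hf.prodMk hl)

/-- description by the position in a computable list -/
lemma list_machine (hU : Optimal U) {Λ : ℕ → ℕ → List (List Bool)}
    (hΛ : CI O0 fun x : ℕ × ℕ => Λ x.1 x.2) : ∃ c : ℕ, ∀ b l L L', Λ b l = L ++ L' →
      L.length ≤ 2 ^ l → ∀ σ ∈ L, cx U σ ≤ (l + b + c : ℕ) := by
  have h1 : CI O0 fun q : List Bool => (Λ (q.idxOf false) (q.drop (q.idxOf false + 1)).length).getD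
      ((allStr (q.drop (q.idxOf false + 1)).length).idxOf (q.drop (q.idxOf false + 1))) [] := by
    fun_prop
  obtain ⟨c, hc⟩ := hU.2 _ (ci0 h1).partrec
  refine ⟨c + 1, fun b l L L' e hL σ hσ => (hc σ).trans ?_⟩
  obtain ⟨i, hi, rfl⟩ := List.getElem_of_mem hσ
  have h2 : i < (allStr l).length := length_allStr l ▸ hi.trans_le hL
  have h3 : (allStr l)[i].length = l := (mem_allStr _ _).1 (List.getElem_mem _)
  have h4 : (List.replicate b true ++ false :: (allStr l)[i]).idxOf false = b := by
    simp [List.idxOf_append]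
  have h5 : (List.replicate b true ++ false :: (allStr l)[i]).drop (b + 1) = (allStr l)[i] := by
    simp [List.drop_append]
  refine (add_le_add_left (iInf₂_le (List.replicate b true ++ false :: (allStr l)[i]) ?_) _).trans
    (le_of_eq ?_)
  · simp only [PFun.coe_val, Part.mem_some_iff, h4, h5, h3, (nodup_allStr l).idxOf_getElem, e]
    rw [List.getD_append _ _ _ _ hi, List.getD_eq_getElem]
  · simp only [List.length_append, List.length_replicate, List.length_cons, h3]
    norm_cast
    ring

/-- there are few short programs -/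
lemma budget (n : ℕ) (P : Finset ℕ) {e : ℕ → ℕ} (he : Set.InjOn e P) : ∑ p ∈ P, (2 : ℝ) ^ e p *
    Ex (n + e p) (ind fun σ => ∃ q, σ ∈ U q ∧ q.length + e p < σ.length) ≤ 1 := by
  have h1 : (P.biUnion fun p => (strs (n + e p)).filter
      fun σ => ∃ q, σ ∈ U q ∧ q.length + e p < σ.length).card ≤ ((range n).biUnion strs).card := by
    refine card_le_card_of_forall_subsingleton (fun σ q => σ ∈ U q) (fun σ hσ => ?_)
      fun q _ σ h1 τ h2 => Part.mem_unique h1.2 h2.2
    simp only [mem_biUnion, mem_filter, mem_strs, mem_range] at hσ ⊢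
    obtain ⟨p, -, h1, q, h2, h3⟩ := hσ
    exact ⟨q, ⟨_, by omega, rfl⟩, h2⟩
  have h2 : ((range n).biUnion strs).card ≤ 2 ^ n := card_biUnion_le.trans (by
    simp only [card_strs]
    exact (Nat.geomSum_lt le_rfl (by simp)).le)
  rw [card_biUnion fun p hp p' hp' h => disjoint_left.2 fun σ h3 h4 => h (he hp hp' (by
    have := (mem_strs.1 (mem_filter.1 h3).1).symm.trans (mem_strs.1 (mem_filter.1 h4).1)
    omega))] at h1
  have h3 := (Nat.cast_le (α := ℝ)).2 (h1.trans h2)
  simp only [Nat.cast_sum, card_ind, pow_add, mul_assoc, ← mul_sum, Nat.cast_pow,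
    Nat.cast_ofNat] at h3
  exact (mul_le_iff_le_one_right (by positivity)).1 h3

lemma nw_take {s s' p m : ℕ} (h : lev s ≤ lev s') (h' : lev s' ≤ m) (σ : List Bool) :
    Nw s s' p (σ.take m) ↔ Nw s s' p σ := by
  rw [Nw, Nw, hi_take h', hi_take (h.trans h')]

lemma freq_inc {ι : Type} {F : Finset ι} {Z : ι → ℕ → Bool} {e : ℕ} (h : ∃ᶠ n in atTop, ∀ i ∈ F,
    ¬∃ q, pre (Z i) (n + e) ∈ U q ∧ q.length + e < (pre (Z i) (n + e)).length) :
    ∃ᶠ n in atTop, ∀ i ∈ F, Inc U e (Z i) n :=
  (tendsto_add_atTop_nat e).frequently (h.mono fun _ h i hi => inc_iff.2 (h i hi))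

theorem upper₁ (hU : Optimal U) {a : ℕ → ℕ} (ha : CI O0 a)
    (hs : ∀ n, ∑ j ∈ range n, (1 : ℝ) / 2 ^ a j ≤ 1) :
    ∃ c : ℕ, ∀ (j d : ℕ) (F : Finset (ℕ → Bool)), F.card ≤ 2 ^ j →
      (∀ Z ∈ F, ∃ᶠ n in atTop, Inc U d Z n) →
        ∃ᶠ n in atTop, ∀ Z ∈ F, Inc U (d + j + a j + c) Z n := by
  obtain ⟨st, ap, h1, h2, h3, h4, h5⟩ := core (X := O0)
    (sh := fun p => p.unpair.1 + p.unpair.2 + a p.unpair.2 + 2)
    (c := fun p => 2 ^ (p.unpair.1 + p.unpair.2 + 2)) (ρ := fun p => p.unpair.2)
    (sig_bad hU.1 (e := fun p => p.unpair.1 + p.unpair.2 + a p.unpair.2 + 2) (by fun_prop))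
    (by fun_prop) (by fun_prop) (by fun_prop) fun n => by
      rw [← sum_fiberwise_of_maps_to (t := range n) (g := fun p => p.unpair.2) fun p hp =>
        mem_range.2 ((Nat.unpair_right_le p).trans_lt (mem_range.1 hp))]
      refine (sum_le_sum fun j _ => ?_).trans (hs n)
      refine le_trans (le_of_eq ?_) (mul_le_of_le_one_right (by positivity) (budget (U := U) n
        ((range n).filter fun p => p.unpair.2 = j)
        (e := fun p => p.unpair.1 + p.unpair.2 + a p.unpair.2 + 2) fun p hp p' hp' h => ?_))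
      · rw [mul_sum]
        refine sum_congr rfl fun p hp => ?_
        rw [← (mem_filter.1 hp).2, ← mul_assoc]
        congr 1
        push_cast
        field_simp
        ring
      · have e1 := (mem_filter.1 hp).2.trans (mem_filter.1 hp').2.symm
        rw [← Nat.pair_unpair p, ← Nat.pair_unpair p', e1]
        simp only [e1] at h
        congr 1
        omega
  let T : ℕ → ℕ → ℕ → List (List Bool) := fun l s s' => (List.range (lev s')).flatMap fun p =>
    (allStr (l + p.unpair.1)).filter fun σ => decide (Nw s s' p σ)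
  obtain ⟨c, hc⟩ := list_machine hU
    (Λ := fun _ l => (List.range l).flatMap fun j => T l (ap l j) (ap l (j + 1))) (by
      simp only [T]
      fun_prop)
  refine ⟨c + 3, fun j d F hF H => ?_⟩
  have h6 := freq_inc (h5 _ F id (fun _ => Nat.pair (d + c + 1) j) (by
    simp only [Nat.unpair_pair, sum_const, nsmul_eq_mul, mul_one_div]
    exact (div_le_one (by positivity)).2 (by exact_mod_cast hF)) fun Z hZ i h => ?_)
  · simp only [Nat.unpair_pair, id] at h6
    rwa [show d + j + a j + (c + 3) = d + c + 1 + j + a j + 2 by ring]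
  refine H Z hZ (map_add_atTop_eq_nat (d + c + 1) ▸ eventually_map.2 ?_)
  filter_upwards [(eventually_all_finset (range (i + 2))).2 fun k _ => h2 k, eventually_gt_atTop i,
    (eventually_all_finset (range (i + 1))).2 fun k _ => eventually_ge_atTop (lev (st (k + 1)))]
    with l l1 l2 l3 h7
  obtain ⟨m, rfl⟩ := Nat.exists_eq_add_of_le (Nat.succ_le_of_lt l2)
  set l := i.succ + m with hl
  have h8 := hc 0 l ((List.range (i + 1)).flatMap fun k => T l (st k) (st (k + 1))) _ (by
    rw [hl, List.range_add, List.flatMap_append, List.flatMap_congr fun k hk => ?_]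
    rw [l1 k, l1 (k + 1)] <;> simp at hk ⊢ <;> omega) ?_ (pre Z (l + (d + c + 1))) ?_
  · have h9 := le_trans h7 (add_le_add_left h8 _)
    norm_cast at h9
    omega
  · rw [← Nat.cast_le (α := ℝ), List.length_flatMap, Nat.cast_list_sum, List.map_map]
    refine le_trans ?_ ((mul_le_mul_of_nonneg_left (h4 (i + 1) l)
      (by positivity : (0 : ℝ) ≤ 2 ^ l / 4)).trans_eq (by simp))
    simp only [mul_sum]
    rw [sum_comm]
    refine sum_le_sum (s := range (i + 1)) fun k hk => ?_
    simp only [Function.comp, T, List.length_flatMap, Nat.cast_list_sum, List.map_map]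
    refine le_trans (le_of_eq (sum_congr (s₁ := range _) rfl fun p _ => ?_))
      (sum_le_sum_of_subset_of_nonneg (range_subset_range.2 (l3 k hk)) fun p _ _ =>
        mul_nonneg (by positivity) (mul_nonneg (by positivity) (Ex_nonneg fun _ _ => ind_nonneg _ _)))
    rw [Function.comp, length_filter, ← Ex_take ((l3 k hk).trans (l.le_add_right p.unpair.1)),
      Ex_congr (g := ind _) fun σ _ => if_congr (nw_take (h3 k).le le_rfl σ).symm rfl rfl]
    simp only [ind]
    push_cast
    field_simp
    ring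
  · refine List.mem_flatMap.2 ⟨i, by simp, List.mem_flatMap.2 ⟨_, List.mem_range.2 h.1.lt,
      List.mem_filter.2 ⟨(mem_allStr _ _).2 (by simp [pre_length]), decide_eq_true ?_⟩⟩⟩
    rwa [← nw_take (h3 i).le le_rfl, pre_take _ ((l3 i (by simp)).trans (l.le_add_right _))]

theorem upper (hU : Optimal U) {a : ℕ → ℕ} (ha : Computable a)
    (hs : Summable fun j => (1 / 2 : ℝ) ^ a j) :
    ∃ c : ℕ, ∀ (j d : ℕ) (F : Finset (ℕ → Bool)), F.card ≤ 2 ^ j →
      (∀ Z ∈ F, ∃ᶠ n in atTop, Inc U d Z n) →
        ∃ᶠ n in atTop, ∀ Z ∈ F, Inc U (d + j + a j + c) Z n := by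
  obtain ⟨b, hb⟩ := pow_unbounded_of_one_lt (∑' j, (1 / 2 : ℝ) ^ a j) one_lt_two
  obtain ⟨c, hc⟩ := upper₁ hU (a := fun j => a j + b) (by fun_prop) fun n => by
    simp only [pow_add, ← div_div, ← sum_div, ← one_div_pow]
    exact (div_le_one (by positivity)).2
      ((hs.sum_le_tsum _ fun _ _ => by positivity).trans hb.le)
  exact ⟨b + c, fun j d F h1 h2 => by simpa only [add_assoc] using hc j d F h1 h2⟩

end Pool.Agent.P.MP_14681b_lc.K
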